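import Pool.Agent.X297.KP.Sol

set_option autoImplicit false

open MeasureTheory Real Set Filter Topology
open scoped ENNReal

namespace Pool.Agent.X297.KP

noncomputable section

variable {N : ℕ}

theorem lint_ftc' {g G : ℝ → ℝ} (hg : Continuous g) {a b : ℝ} (hab : a ≤ b)
    (h0 : ∀ s, a ≤ s → s ≤ b → 0 ≤ g s)
    (hG : ∀ s, HasDerivAt G (g s) s) :
    ∫⁻ s in Ioo a b, ENNReal.ofReal (g s) = ENNReal.ofReal (G b - G a) := by
  have h1 : ∫ s in a..b, g s = G b - G a :=
    intervalIntegral.integral_eq_sub_of_hasDerivAt (fun s _ => hG s) (hg.intervalIntegrable _ _)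
  rw [← h1, intervalIntegral.integral_of_le hab, integral_Ioc_eq_integral_Ioo,
    ofReal_integral_eq_lintegral_ofReal]
  · exact (hg.integrableOn_Icc (a := a) (b := b)).mono_set Ioo_subset_Icc_self
  · filter_upwards [ae_restrict_mem measurableSet_Ioo] with s hs
    exact h0 s hs.1.le hs.2.le

/-- The truncation to `[0,1]`. -/
def cl (v : ℝ≥0∞) : ℝ := (min v 1).toReal

theorem cl_cont : Continuous cl := by
  unfold cl
  apply ENNReal.continuousOn_toReal.comp_continuous (by fun_prop)
  intro v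
  exact ne_of_lt (lt_of_le_of_lt (min_le_right _ _) ENNReal.one_lt_top)

theorem cl_mem (v : ℝ≥0∞) : cl v ∈ Icc (0:ℝ) 1 := by
  unfold cl
  refine ⟨ENNReal.toReal_nonneg, ?_⟩
  have := ENNReal.toReal_mono ENNReal.one_ne_top (min_le_right v 1)
  simpa using this

theorem cl_mono : Monotone cl := by
  intro v w h
  unfold cl
  exact ENNReal.toReal_mono (ne_of_lt (lt_of_le_of_lt (min_le_right _ _) ENNReal.one_lt_top))
    (min_le_min_right _ h)

/-- The nonlinearity plus `M` times the identity. -/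
def Gt (f : ℝ → ℝ) (M : ℝ) (v : ℝ≥0∞) : ℝ≥0∞ := ENNReal.ofReal (f (cl v) + M * cl v)

section
variable {f : ℝ → ℝ} {M : ℝ}

theorem Gt_cont (hf : IsKPP f) : Continuous (Gt f M) := by
  unfold Gt
  have h1 : Continuous (fun v => f (cl v)) :=
    hf.contDiff.continuousOn.comp_continuous cl_cont cl_mem
  exact ENNReal.continuous_ofReal.comp (h1.add (cl_cont.const_mul M))

theorem Gt_mono (hM : ∀ a ∈ Icc (0:ℝ) 1, ∀ b ∈ Icc (0:ℝ) 1, |f a - f b| ≤ M * |a - b|) :
    Monotone (Gt f M) := by
  intro v w h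
  unfold Gt
  apply ENNReal.ofReal_le_ofReal
  have h1 := cl_mono h
  have h2 := hM _ (cl_mem v) _ (cl_mem w)
  rw [abs_sub_comm (cl v), abs_of_nonneg (by linarith : 0 ≤ cl w - cl v)] at h2
  have h3 := (abs_le.mp h2).2
  linarith

theorem Gt_le (hf : IsKPP f)
    (hM : ∀ a ∈ Icc (0:ℝ) 1, ∀ b ∈ Icc (0:ℝ) 1, |f a - f b| ≤ M * |a - b|) (v : ℝ≥0∞) :
    Gt f M v ≤ ENNReal.ofReal M := by
  unfold Gt
  apply ENNReal.ofReal_le_ofReal
  have h2 := hM _ (cl_mem v) 1 ⟨zero_le_one, le_rfl⟩
  rw [hf.one, abs_sub_comm (cl v), abs_of_nonneg (by linarith [(cl_mem v).2] : 0 ≤ 1 - cl v)] at h2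
  have h3 := (abs_le.mp h2).2
  linarith

/-- One step of the iteration. -/
def Phi (f : ℝ → ℝ) (M : ℝ) (U : Set (E N)) (w : ℝ → E N → ℝ≥0∞) : ℝ → E N → ℝ≥0∞ :=
  fun t x => ENNReal.ofReal (Real.exp (-(M * t))) *
      (∫⁻ y, ENNReal.ofReal (heatK t (x - y)) * U.indicator 1 y) +
    ∫⁻ s in Ioo 0 t, ENNReal.ofReal (Real.exp (-(M * (t - s)))) *
      ∫⁻ y, ENNReal.ofReal (heatK (t - s) (x - y)) * Gt f M (w s y)

theorem meas_time {H : (ℝ × E N) × ℝ → ℝ≥0∞} (hH : Measurable H) :
    Measurable (fun p : ℝ × E N => ∫⁻ s in Ioo 0 p.1, H (p, s)) := by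
  have h1 : (fun p : ℝ × E N => ∫⁻ s in Ioo 0 p.1, H (p, s)) = fun p =>
      ∫⁻ s, ({q : (ℝ × E N) × ℝ | 0 < q.2 ∧ q.2 < q.1.1}.indicator H) (p, s) := by
    funext p
    rw [← lintegral_indicator measurableSet_Ioo]
    congr 1
  rw [h1]
  apply Measurable.lintegral_prod_right'
  apply hH.indicator
  have e1 : MeasurableSet {q : (ℝ × E N) × ℝ | 0 < q.2} := by
    apply measurableSet_lt <;> fun_prop
  have e2 : MeasurableSet {q : (ℝ × E N) × ℝ | q.2 < q.1.1} := by
    apply measurableSet_lt <;> fun_prop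
  exact e1.inter e2

theorem meas_inner {D : ℝ → E N → ℝ≥0∞} (hD : Measurable (Function.uncurry D)) :
    Measurable (fun p : (ℝ × E N) × ℝ =>
      ∫⁻ y, ENNReal.ofReal (heatK (p.1.1 - p.2) (p.1.2 - y)) * D p.2 y) := by
  apply Measurable.lintegral_prod_right' (f := fun q : ((ℝ × E N) × ℝ) × E N =>
    ENNReal.ofReal (heatK (q.1.1.1 - q.1.2) (q.1.1.2 - q.2)) * D q.1.2 q.2)
  apply Measurable.mul
  · apply ENNReal.measurable_ofReal.comp
    exact heatK_meas.comp (f := fun q : ((ℝ × E N) × ℝ) × E N =>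
      (q.1.1.1 - q.1.2, q.1.1.2 - q.2)) (by fun_prop)
  · exact hD.comp (f := fun q : ((ℝ × E N) × ℝ) × E N => (q.1.2, q.2)) (by fun_prop)

theorem ind_meas {U : Set (E N)} (hU : MeasurableSet U) :
    Measurable (U.indicator (1 : E N → ℝ≥0∞)) := measurable_one.indicator hU

theorem Phi_meas (hf : IsKPP f) {U : Set (E N)} (hU : MeasurableSet U) {w : ℝ → E N → ℝ≥0∞}
    (hw : Measurable (Function.uncurry w)) : Measurable (Function.uncurry (Phi f M U w)) := by
  have h1 := meas_conv0 (ind_meas hU)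
  have h2 := meas_inner (D := fun s y => Gt f M (w s y)) ((Gt_cont hf).measurable.comp hw)
  have h3 : Measurable (fun p : (ℝ × E N) × ℝ => ENNReal.ofReal (Real.exp (-(M * (p.1.1 - p.2)))) *
      ∫⁻ y, ENNReal.ofReal (heatK (p.1.1 - p.2) (p.1.2 - y)) * Gt f M (w p.2 y)) := by
    apply Measurable.mul _ h2
    fun_prop
  have h4 := meas_time h3
  have h5 : Measurable (fun p : ℝ × E N => ENNReal.ofReal (Real.exp (-(M * p.1)))) := by fun_prop
  exact (h5.mul h1).add h4

theorem Phi_mono (hM : ∀ a ∈ Icc (0:ℝ) 1, ∀ b ∈ Icc (0:ℝ) 1, |f a - f b| ≤ M * |a - b|)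
    (U : Set (E N)) {w w' : ℝ → E N → ℝ≥0∞} (h : ∀ t x, w t x ≤ w' t x) (t : ℝ) (x : E N) :
    Phi f M U w t x ≤ Phi f M U w' t x := by
  unfold Phi
  gcongr with s y
  exact Gt_mono hM (h _ _)

theorem Phi_le (hf : IsKPP f) (hM0 : 0 ≤ M)
    (hM : ∀ a ∈ Icc (0:ℝ) 1, ∀ b ∈ Icc (0:ℝ) 1, |f a - f b| ≤ M * |a - b|)
    (U : Set (E N)) (w : ℝ → E N → ℝ≥0∞) {t : ℝ} (ht : 0 < t) (x : E N) :
    Phi f M U w t x ≤ 1 := by
  unfold Phi
  have h1 : ∫⁻ y, ENNReal.ofReal (heatK t (x - y)) * U.indicator 1 y ≤ 1 := by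
    rw [← lint_heatK ht x]
    apply lintegral_mono
    intro y
    apply mul_le_of_le_one_right'
    by_cases h : y ∈ U <;> simp [h]
  have h2 : ∫⁻ s in Ioo 0 t, ENNReal.ofReal (Real.exp (-(M * (t - s)))) *
      ∫⁻ y, ENNReal.ofReal (heatK (t - s) (x - y)) * Gt f M (w s y) ≤
      ∫⁻ s in Ioo 0 t, ENNReal.ofReal (M * Real.exp (-(M * (t - s)))) := by
    apply setLIntegral_mono' measurableSet_Ioo
    intro s hs
    have hts : 0 < t - s := by linarith [hs.2]
    rw [ENNReal.ofReal_mul hM0, mul_comm (ENNReal.ofReal M)]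
    gcongr
    calc ∫⁻ y, ENNReal.ofReal (heatK (t - s) (x - y)) * Gt f M (w s y)
        ≤ ∫⁻ y, ENNReal.ofReal (heatK (t - s) (x - y)) * ENNReal.ofReal M := by
          apply lintegral_mono
          intro y
          simp only
          gcongr
          exact Gt_le hf hM _
      _ = ENNReal.ofReal M := by
          rw [lintegral_mul_const' _ _ ENNReal.ofReal_ne_top, lint_heatK hts, one_mul]
  have h3 : ∫⁻ s in Ioo 0 t, ENNReal.ofReal (M * Real.exp (-(M * (t - s)))) =
      ENNReal.ofReal (1 - Real.exp (-(M * t))) := by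
    rw [lint_ftc' (g := fun s => M * Real.exp (-(M * (t - s))))
      (G := fun s => Real.exp (-(M * (t - s)))) (by fun_prop) ht.le (fun s _ _ => by positivity)
      (fun s => by
        have := ((((hasDerivAt_id' s).const_sub t).const_mul M).fun_neg).exp
        refine this.congr_deriv ?_
        ring)]
    congr 1
    simp
  calc _ ≤ ENNReal.ofReal (Real.exp (-(M * t))) * 1 + ENNReal.ofReal (1 - Real.exp (-(M * t))) := by
        rw [h3] at h2
        gcongr
    _ = 1 := by
        rw [mul_one, ← ENNReal.ofReal_add (by positivity) (by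
          have : Real.exp (-(M * t)) ≤ 1 := Real.exp_le_one_iff.mpr (by
            have : 0 ≤ M * t := by positivity
            linarith)
          linarith)]
        simp

/-- The iterates. -/
def it (f : ℝ → ℝ) (M : ℝ) (U : Set (E N)) : ℕ → ℝ → E N → ℝ≥0∞
  | 0 => fun _ _ => 0
  | n + 1 => Phi f M U (it f M U n)

theorem it_meas (hf : IsKPP f) {U : Set (E N)} (hU : MeasurableSet U) (n : ℕ) :
    Measurable (Function.uncurry (it f M U n)) := by
  induction n with
  | zero => exact measurable_const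
  | succ n ih => exact Phi_meas hf hU ih

theorem it_mono (hM : ∀ a ∈ Icc (0:ℝ) 1, ∀ b ∈ Icc (0:ℝ) 1, |f a - f b| ≤ M * |a - b|)
    (U : Set (E N)) (t : ℝ) (x : E N) : Monotone (fun n => it f M U n t x) := by
  apply monotone_nat_of_le_succ
  intro n
  induction n generalizing t x with
  | zero => exact zero_le
  | succ n ih => exact Phi_mono hM U ih t x

/-- The limit of the iterates. -/
def uu (f : ℝ → ℝ) (M : ℝ) (U : Set (E N)) : ℝ → E N → ℝ≥0∞ := fun t x => ⨆ n, it f M U n t x

theorem uu_meas (hf : IsKPP f) {U : Set (E N)} (hU : MeasurableSet U) :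
    Measurable (Function.uncurry (uu f M U)) := by
  have h : Function.uncurry (uu f M U) = fun p => ⨆ n, Function.uncurry (it f M U n) p := rfl
  rw [h]
  exact Measurable.iSup (fun n => it_meas hf hU n)

theorem uu_fix (hf : IsKPP f)
    (hM : ∀ a ∈ Icc (0:ℝ) 1, ∀ b ∈ Icc (0:ℝ) 1, |f a - f b| ≤ M * |a - b|)
    {U : Set (E N)} (hU : MeasurableSet U) (t : ℝ) (x : E N) :
    uu f M U t x = Phi f M U (uu f M U) t x := by
  have h1 : Tendsto (fun n => it f M U (n + 1) t x) atTop (𝓝 (uu f M U t x)) :=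
    (tendsto_atTop_iSup (it_mono hM U t x)).comp (tendsto_add_atTop_nat 1)
  have hG : ∀ n, Measurable (Function.uncurry (fun s y => Gt f M (it f M U n s y))) := fun n =>
    (Gt_cont hf).measurable.comp (it_meas hf hU n)
  have h2 : Tendsto (fun n => Phi f M U (it f M U n) t x) atTop
      (𝓝 (Phi f M U (uu f M U) t x)) := by
    unfold Phi
    apply Tendsto.const_add
    apply lintegral_tendsto_of_tendsto_of_monotone
    · intro n
      apply Measurable.aemeasurable
      apply Measurable.mul (by fun_prop)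
      exact (meas_inner (hG n)).comp (f := fun s : ℝ => ((t, x), s)) (by fun_prop)
    · refine Eventually.of_forall (fun s => ?_)
      intro n m hnm
      simp only
      gcongr with y
      exact Gt_mono hM (it_mono hM U s y hnm)
    · refine Eventually.of_forall (fun s => ?_)
      apply ENNReal.Tendsto.const_mul _ (Or.inr ENNReal.ofReal_ne_top)
      apply lintegral_tendsto_of_tendsto_of_monotone
      · intro n
        apply Measurable.aemeasurable
        have a1 : Measurable (fun y : E N => ENNReal.ofReal (heatK (t - s) (x - y))) := by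
          have := heatK_cont (N := N) (t := t - s)
          fun_prop
        have a2 : Measurable (fun y : E N => Gt f M (it f M U n s y)) :=
          (hG n).comp (f := fun y : E N => (s, y)) (by fun_prop)
        exact a1.mul a2
      · refine Eventually.of_forall (fun y => ?_)
        intro n m hnm
        simp only
        gcongr
        exact Gt_mono hM (it_mono hM U s y hnm)
      · refine Eventually.of_forall (fun y => ?_)
        apply ENNReal.Tendsto.const_mul _ (Or.inr ENNReal.ofReal_ne_top)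
        exact ((Gt_cont hf).tendsto _).comp (tendsto_atTop_iSup (it_mono hM U s y))
  exact tendsto_nhds_unique h1 h2

/-- The resolvent identity. -/
theorem resolvent {φ : ℝ → E N → ℝ≥0∞} (hφ : Measurable (Function.uncurry φ)) (hM0 : 0 ≤ M)
    {t : ℝ} (x : E N) :
    ∫⁻ s in Ioo 0 t, ∫⁻ y, ENNReal.ofReal (heatK (t - s) (x - y)) *
        (∫⁻ r in Ioo 0 s, ENNReal.ofReal (M * Real.exp (-(M * (s - r)))) *
          ∫⁻ z, ENNReal.ofReal (heatK (s - r) (y - z)) * φ r z) =
      ∫⁻ r in Ioo 0 t, ENNReal.ofReal (1 - Real.exp (-(M * (t - r)))) *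
        ∫⁻ z, ENNReal.ofReal (heatK (t - r) (x - z)) * φ r z := by
  set C : ℝ → ℝ≥0∞ := fun r => ∫⁻ z, ENNReal.ofReal (heatK (t - r) (x - z)) * φ r z with hC
  have hCm : Measurable C :=
    (meas_inner hφ).comp (f := fun r : ℝ => ((t, x), r)) (by fun_prop)
  have step1 : ∀ s ∈ Ioo (0:ℝ) t, ∫⁻ y, ENNReal.ofReal (heatK (t - s) (x - y)) *
        (∫⁻ r in Ioo 0 s, ENNReal.ofReal (M * Real.exp (-(M * (s - r)))) *
          ∫⁻ z, ENNReal.ofReal (heatK (s - r) (y - z)) * φ r z) =
      ∫⁻ r in Ioo 0 s, ENNReal.ofReal (M * Real.exp (-(M * (s - r)))) * C r := by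
    intro s hs
    have hts : 0 < t - s := by linarith [hs.2]
    have e1 : ∀ y : E N, ENNReal.ofReal (heatK (t - s) (x - y)) *
        (∫⁻ r in Ioo 0 s, ENNReal.ofReal (M * Real.exp (-(M * (s - r)))) *
          ∫⁻ z, ENNReal.ofReal (heatK (s - r) (y - z)) * φ r z) =
        ∫⁻ r in Ioo 0 s, ENNReal.ofReal (heatK (t - s) (x - y)) *
          (ENNReal.ofReal (M * Real.exp (-(M * (s - r)))) *
          ∫⁻ z, ENNReal.ofReal (heatK (s - r) (y - z)) * φ r z) := by
      intro y
      rw [lintegral_const_mul' _ _ ENNReal.ofReal_ne_top]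
    simp_rw [e1]
    rw [lintegral_lintegral_swap]
    · apply setLIntegral_congr_fun measurableSet_Ioo
      intro r hr
      have hsr : 0 < s - r := by linarith [hr.2]
      have e2 : ∀ y : E N, ENNReal.ofReal (heatK (t - s) (x - y)) *
          (ENNReal.ofReal (M * Real.exp (-(M * (s - r)))) *
          ∫⁻ z, ENNReal.ofReal (heatK (s - r) (y - z)) * φ r z) =
          ENNReal.ofReal (M * Real.exp (-(M * (s - r)))) *
          (ENNReal.ofReal (heatK (t - s) (x - y)) *
          ∫⁻ z, ENNReal.ofReal (heatK (s - r) (y - z)) * φ r z) := by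
        intro y; ring
      simp only
      simp_rw [e2]
      rw [lintegral_const_mul' _ _ ENNReal.ofReal_ne_top,
        conv_conv (D := φ r) (hφ.comp (f := fun y : E N => (r, y)) (by fun_prop)) hts hsr]
      simp only [hC]
      congr 4
      funext z
      congr 3
      ring
    · apply Measurable.aemeasurable
      have h1 := (meas_conv hφ s).comp (f := fun q : E N × ℝ => (q.2, q.1)) (by fun_prop)
      have h2 : Measurable (fun q : E N × ℝ => ENNReal.ofReal (heatK (t - s) (x - q.1))) := by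
        have := heatK_cont (N := N) (t := t - s)
        fun_prop
      have h3 : Measurable (fun q : E N × ℝ =>
          ENNReal.ofReal (M * Real.exp (-(M * (s - q.2))))) := by fun_prop
      exact h2.mul (h3.mul h1)
  rw [setLIntegral_congr_fun measurableSet_Ioo step1]
  -- swap the triangle
  have e3 : ∫⁻ s in Ioo 0 t, ∫⁻ r in Ioo 0 s, ENNReal.ofReal (M * Real.exp (-(M * (s - r)))) * C r =
      ∫⁻ s, ∫⁻ r, ({q : ℝ × ℝ | 0 < q.2 ∧ q.2 < q.1 ∧ q.1 < t}.indicator (fun q =>
        ENNReal.ofReal (M * Real.exp (-(M * (q.1 - q.2)))) * C q.2)) (s, r) := by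
    rw [← lintegral_indicator measurableSet_Ioo]
    congr 1
    funext s
    by_cases hs : s ∈ Ioo 0 t
    · rw [indicator_of_mem hs, ← lintegral_indicator measurableSet_Ioo]
      congr 1
      funext r
      by_cases hr : r ∈ Ioo 0 s
      · have hq : ((s, r) : ℝ × ℝ) ∈ {q : ℝ × ℝ | 0 < q.2 ∧ q.2 < q.1 ∧ q.1 < t} :=
          ⟨hr.1, hr.2, hs.2⟩
        rw [indicator_of_mem hr, indicator_of_mem hq]
      · have hq : ((s, r) : ℝ × ℝ) ∉ {q : ℝ × ℝ | 0 < q.2 ∧ q.2 < q.1 ∧ q.1 < t} := by
          rintro ⟨h1, h2, h3⟩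
          exact hr ⟨h1, h2⟩
        rw [indicator_of_notMem hr, indicator_of_notMem hq]
    · rw [indicator_of_notMem hs]
      symm
      rw [lintegral_eq_zero_iff' ]
      · refine Eventually.of_forall (fun r => ?_)
        have hq : ((s, r) : ℝ × ℝ) ∉ {q : ℝ × ℝ | 0 < q.2 ∧ q.2 < q.1 ∧ q.1 < t} := by
          rintro ⟨h1, h2, h3⟩
          exact hs ⟨h1.trans h2, h3⟩
        exact indicator_of_notMem hq _
      · have hq : ∀ r, ({q : ℝ × ℝ | 0 < q.2 ∧ q.2 < q.1 ∧ q.1 < t}.indicator (fun q =>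
            ENNReal.ofReal (M * Real.exp (-(M * (q.1 - q.2)))) * C q.2)) (s, r) = 0 := by
          intro r
          apply indicator_of_notMem
          rintro ⟨h1, h2, h3⟩
          exact hs ⟨h1.trans h2, h3⟩
        simp_rw [hq]
        exact aemeasurable_const
  have hSm : MeasurableSet {q : ℝ × ℝ | 0 < q.2 ∧ q.2 < q.1 ∧ q.1 < t} := by
    have e1 : MeasurableSet {q : ℝ × ℝ | 0 < q.2} := by
      apply measurableSet_lt <;> fun_prop
    have e2 : MeasurableSet {q : ℝ × ℝ | q.2 < q.1} := by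
      apply measurableSet_lt <;> fun_prop
    have e3 : MeasurableSet {q : ℝ × ℝ | q.1 < t} := by
      apply measurableSet_lt <;> fun_prop
    exact e1.inter (e2.inter e3)
  have hFm : Measurable (fun q : ℝ × ℝ =>
      ENNReal.ofReal (M * Real.exp (-(M * (q.1 - q.2)))) * C q.2) := by
    apply Measurable.mul (by fun_prop)
    exact hCm.comp measurable_snd
  rw [e3, lintegral_lintegral_swap]
  · rw [← lintegral_indicator measurableSet_Ioo]
    congr 1
    funext r
    by_cases hr : r ∈ Ioo 0 t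
    · rw [indicator_of_mem hr]
      have e4 : ∀ s, ({q : ℝ × ℝ | 0 < q.2 ∧ q.2 < q.1 ∧ q.1 < t}.indicator (fun q =>
            ENNReal.ofReal (M * Real.exp (-(M * (q.1 - q.2)))) * C q.2)) (s, r) =
          (Ioo r t).indicator (fun s => ENNReal.ofReal (M * Real.exp (-(M * (s - r)))) * C r) s := by
        intro s
        by_cases hs : s ∈ Ioo r t
        · have hq : ((s, r) : ℝ × ℝ) ∈ {q : ℝ × ℝ | 0 < q.2 ∧ q.2 < q.1 ∧ q.1 < t} :=
            ⟨hr.1, hs.1, hs.2⟩
          rw [indicator_of_mem hs, indicator_of_mem hq]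
        · have hq : ((s, r) : ℝ × ℝ) ∉ {q : ℝ × ℝ | 0 < q.2 ∧ q.2 < q.1 ∧ q.1 < t} := by
            rintro ⟨h1, h2, h3⟩
            exact hs ⟨h2, h3⟩
          rw [indicator_of_notMem hs, indicator_of_notMem hq]
      simp_rw [e4]
      rw [lintegral_indicator measurableSet_Ioo, lintegral_mul_const _ (by fun_prop),
        lint_ftc' (g := fun s => M * Real.exp (-(M * (s - r))))
          (G := fun s => -Real.exp (-(M * (s - r)))) (by fun_prop) hr.2.le
          (fun s _ _ => by positivity) (fun s => by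
            have := (((((hasDerivAt_id' s).sub_const r).const_mul M).fun_neg).exp).fun_neg
            refine this.congr_deriv ?_
            ring)]
      congr 2
      simp
      ring
    · rw [indicator_of_notMem hr]
      have hq : ∀ s, ({q : ℝ × ℝ | 0 < q.2 ∧ q.2 < q.1 ∧ q.1 < t}.indicator (fun q =>
            ENNReal.ofReal (M * Real.exp (-(M * (q.1 - q.2)))) * C q.2)) (s, r) = 0 := by
        intro s
        apply indicator_of_notMem
        rintro ⟨h1, h2, h3⟩
        exact hr ⟨h1, h2.trans h3⟩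
      simp_rw [hq]
      simp
  · exact (hFm.indicator hSm).aemeasurable

/-- The limit satisfies Duhamel's formula with the factor `M` on both sides. -/
theorem uu_eq (hf : IsKPP f) (hM0 : 0 ≤ M)
    (hM : ∀ a ∈ Icc (0:ℝ) 1, ∀ b ∈ Icc (0:ℝ) 1, |f a - f b| ≤ M * |a - b|)
    {U : Set (E N)} (hU : MeasurableSet U) {t : ℝ} (ht : 0 < t) (x : E N) :
    uu f M U t x + ∫⁻ s in Ioo 0 t, ∫⁻ y, ENNReal.ofReal (heatK (t - s) (x - y)) *
        (ENNReal.ofReal M * uu f M U s y) =
      (∫⁻ y, ENNReal.ofReal (heatK t (x - y)) * U.indicator 1 y) +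
      ∫⁻ s in Ioo 0 t, ∫⁻ y, ENNReal.ofReal (heatK (t - s) (x - y)) *
        Gt f M (uu f M U s y) := by
  set φ : ℝ → E N → ℝ≥0∞ := fun s y => Gt f M (uu f M U s y) with hφd
  have hφ : Measurable (Function.uncurry φ) := (Gt_cont hf).measurable.comp (uu_meas hf hU)
  set Q : ℝ → E N → ℝ≥0∞ := fun t x => ∫⁻ y, ENNReal.ofReal (heatK t (x - y)) *
    U.indicator 1 y with hQ
  have hQm : Measurable (Function.uncurry Q) := meas_conv0 (ind_meas hU)
  have hin : ∀ s y, ENNReal.ofReal M * uu f M U s y =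
      ENNReal.ofReal (M * Real.exp (-(M * s))) * Q s y +
      ∫⁻ r in Ioo 0 s, ENNReal.ofReal (M * Real.exp (-(M * (s - r)))) *
          ∫⁻ z, ENNReal.ofReal (heatK (s - r) (y - z)) * φ r z := by
    intro s y
    rw [uu_fix hf hM hU s y]
    have h1 : ENNReal.ofReal M * (∫⁻ r in Ioo 0 s, ENNReal.ofReal (Real.exp (-(M * (s - r)))) *
          ∫⁻ z, ENNReal.ofReal (heatK (s - r) (y - z)) * Gt f M (uu f M U r z)) =
        ∫⁻ r in Ioo 0 s, ENNReal.ofReal (M * Real.exp (-(M * (s - r)))) *
          ∫⁻ z, ENNReal.ofReal (heatK (s - r) (y - z)) * φ r z := by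
      rw [← lintegral_const_mul' _ _ ENNReal.ofReal_ne_top]
      congr 1
      funext r
      rw [ENNReal.ofReal_mul hM0, mul_assoc]
    unfold Phi
    rw [mul_add, h1, ENNReal.ofReal_mul hM0, mul_assoc]
  have e1 : ∫⁻ s in Ioo 0 t, ∫⁻ y, ENNReal.ofReal (heatK (t - s) (x - y)) *
        (ENNReal.ofReal M * uu f M U s y) =
      ENNReal.ofReal (1 - Real.exp (-(M * t))) * Q t x +
      ∫⁻ r in Ioo 0 t, ENNReal.ofReal (1 - Real.exp (-(M * (t - r)))) *
        ∫⁻ z, ENNReal.ofReal (heatK (t - r) (x - z)) * φ r z := by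
    rw [← resolvent hφ hM0 x]
    have hc : ∫⁻ s in Ioo 0 t, ENNReal.ofReal (M * Real.exp (-(M * s))) * Q t x =
        ENNReal.ofReal (1 - Real.exp (-(M * t))) * Q t x := by
      rw [lintegral_mul_const _ (by fun_prop),
        lint_ftc' (g := fun s => M * Real.exp (-(M * s)))
          (G := fun s => -Real.exp (-(M * s))) (by fun_prop) ht.le
          (fun s _ _ => by positivity) (fun s => by
            have := ((((hasDerivAt_id' s).const_mul M).fun_neg).exp).fun_neg
            refine this.congr_deriv ?_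
            ring)]
      congr 2
      simp
      ring
    rw [← hc, ← lintegral_add_left (by fun_prop)]
    apply setLIntegral_congr_fun measurableSet_Ioo
    intro s hs
    have hts : 0 < t - s := by linarith [hs.2]
    have a1 : Measurable (fun y : E N => ENNReal.ofReal (heatK (t - s) (x - y))) := by
      have := heatK_cont (N := N) (t := t - s)
      fun_prop
    have a2 : Measurable (fun y : E N => Q s y) :=
      hQm.comp (f := fun y : E N => (s, y)) (by fun_prop)
    simp only
    simp_rw [hin s, mul_add]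
    have a3 : Measurable (fun y : E N => ENNReal.ofReal (heatK (t - s) (x - y)) *
        (ENNReal.ofReal (M * Real.exp (-(M * s))) * Q s y)) := a1.mul (a2.const_mul _)
    rw [lintegral_add_left a3]
    congr 1
    have e2 : ∀ y : E N, ENNReal.ofReal (heatK (t - s) (x - y)) *
        (ENNReal.ofReal (M * Real.exp (-(M * s))) * Q s y) =
        ENNReal.ofReal (M * Real.exp (-(M * s))) *
        (ENNReal.ofReal (heatK (t - s) (x - y)) * Q s y) := by
      intro y; ring
    simp_rw [e2]
    rw [lintegral_const_mul' _ _ ENNReal.ofReal_ne_top, hQ, conv_conv (ind_meas hU) hts hs.1]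
    congr 4
    funext y
    congr 3
    ring
  rw [e1]
  have e3 : uu f M U t x = ENNReal.ofReal (Real.exp (-(M * t))) * Q t x +
      ∫⁻ s in Ioo 0 t, ENNReal.ofReal (Real.exp (-(M * (t - s)))) *
      ∫⁻ y, ENNReal.ofReal (heatK (t - s) (x - y)) * φ s y := uu_fix hf hM hU t x
  rw [e3]
  have hCm : Measurable (fun r => ∫⁻ z, ENNReal.ofReal (heatK (t - r) (x - z)) * φ r z) :=
    (meas_inner hφ).comp (f := fun r : ℝ => ((t, x), r)) (by fun_prop)
  have e4 : (∫⁻ s in Ioo 0 t, ENNReal.ofReal (Real.exp (-(M * (t - s)))) *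
      ∫⁻ y, ENNReal.ofReal (heatK (t - s) (x - y)) * φ s y) +
      (∫⁻ r in Ioo 0 t, ENNReal.ofReal (1 - Real.exp (-(M * (t - r)))) *
        ∫⁻ z, ENNReal.ofReal (heatK (t - r) (x - z)) * φ r z) =
      ∫⁻ s in Ioo 0 t, ∫⁻ y, ENNReal.ofReal (heatK (t - s) (x - y)) * φ s y := by
    have a4 : Measurable (fun s : ℝ => ENNReal.ofReal (Real.exp (-(M * (t - s)))) *
      ∫⁻ y, ENNReal.ofReal (heatK (t - s) (x - y)) * φ s y) := by
      apply Measurable.mul (by fun_prop) hCm
    rw [← lintegral_add_left a4]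
    apply setLIntegral_congr_fun measurableSet_Ioo
    intro s hs
    have hts : 0 < t - s := by linarith [hs.2]
    simp only
    rw [← add_mul, ← ENNReal.ofReal_add (by positivity) (by
      have : Real.exp (-(M * (t - s))) ≤ 1 := Real.exp_le_one_iff.mpr (by
        have : 0 ≤ M * (t - s) := by positivity
        linarith)
      linarith)]
    simp
  have e5 : ENNReal.ofReal (Real.exp (-(M * t))) * Q t x +
      ENNReal.ofReal (1 - Real.exp (-(M * t))) * Q t x = Q t x := by
    rw [← add_mul, ← ENNReal.ofReal_add (by positivity) (by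
      have : Real.exp (-(M * t)) ≤ 1 := Real.exp_le_one_iff.mpr (by
        have : 0 ≤ M * t := by positivity
        linarith)
      linarith)]
    simp
  calc _ = (ENNReal.ofReal (Real.exp (-(M * t))) * Q t x +
        ENNReal.ofReal (1 - Real.exp (-(M * t))) * Q t x) +
        ((∫⁻ s in Ioo 0 t, ENNReal.ofReal (Real.exp (-(M * (t - s)))) *
      ∫⁻ y, ENNReal.ofReal (heatK (t - s) (x - y)) * φ s y) +
      (∫⁻ r in Ioo 0 t, ENNReal.ofReal (1 - Real.exp (-(M * (t - r)))) *
        ∫⁻ z, ENNReal.ofReal (heatK (t - r) (x - z)) * φ r z)) := by ring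
    _ = _ := by rw [e5, e4]

theorem uu_le (hf : IsKPP f) (hM0 : 0 ≤ M)
    (hM : ∀ a ∈ Icc (0:ℝ) 1, ∀ b ∈ Icc (0:ℝ) 1, |f a - f b| ≤ M * |a - b|)
    (U : Set (E N)) {t : ℝ} (ht : 0 < t) (x : E N) : uu f M U t x ≤ 1 := by
  apply iSup_le
  intro n
  cases n with
  | zero => exact zero_le
  | succ n => exact Phi_le hf hM0 hM U _ ht x

end

/-- Existence of the solution. -/
theorem exists_solution {f : ℝ → ℝ} (hf : IsKPP f) {U : Set (E N)} (hU : MeasurableSet U) :
    ∃ u : ℝ → E N → ℝ, IsSolution f U u := by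
  obtain ⟨M, hM0, hM⟩ := hf.lip
  have hle : ∀ t, 0 < t → ∀ x, uu f M U t x ≤ 1 := fun t ht x => uu_le hf hM0 hM U ht x
  have hne : ∀ t, 0 < t → ∀ x, uu f M U t x ≠ ⊤ := fun t ht x =>
    ne_of_lt (lt_of_le_of_lt (hle t ht x) ENNReal.one_lt_top)
  have hmem : ∀ t, 0 < t → ∀ x, (uu f M U t x).toReal ∈ Icc (0:ℝ) 1 := by
    intro t ht x
    refine ⟨ENNReal.toReal_nonneg, ?_⟩
    have := ENNReal.toReal_mono ENNReal.one_ne_top (hle t ht x)
    simpa using this
  have hcl : ∀ t, 0 < t → ∀ x, cl (uu f M U t x) = (uu f M U t x).toReal := by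
    intro t ht x
    unfold cl
    rw [min_eq_left (hle t ht x)]
  have hum : Measurable (Function.uncurry (fun t x => (uu f M U t x).toReal)) :=
    (uu_meas hf hU).ennreal_toReal
  refine ⟨fun t x => (uu f M U t x).toReal, hum, hmem, ?_⟩
  intro t ht x
  obtain ⟨C, hC⟩ := ext_bd hf
  -- the nonlinear part
  set g : ℝ → E N → ℝ := fun s y => ext f (uu f M U s y).toReal with hg
  have hgm : Measurable (Function.uncurry g) := (ext_cont hf).measurable.comp hum
  have hg0 : ∀ s y, 0 ≤ g s y := by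
    intro s y
    exact hf.nonneg ⟨le_max_left _ _, max_le zero_le_one (min_le_left _ _)⟩
  have hGt : ∀ s, 0 < s → ∀ y, Gt f M (uu f M U s y) =
      ENNReal.ofReal (g s y) + ENNReal.ofReal M * uu f M U s y := by
    intro s hs y
    unfold Gt
    rw [hcl s hs y, ENNReal.ofReal_add (hf.nonneg (hmem s hs y))
      (mul_nonneg hM0 (hmem s hs y).1), ENNReal.ofReal_mul hM0,
      ENNReal.ofReal_toReal (hne s hs y)]
    simp only [hg]
    rw [ext_eq (hmem s hs y)]
  have hK : ∀ s, s < t → Measurable (fun y : E N => ENNReal.ofReal (heatK (t - s) (x - y))) := by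
    intro s _
    have := heatK_cont (N := N) (t := t - s)
    fun_prop
  have hS : ∫⁻ s in Ioo 0 t, ∫⁻ y, ENNReal.ofReal (heatK (t - s) (x - y)) *
        Gt f M (uu f M U s y) =
      (∫⁻ s in Ioo 0 t, ∫⁻ y, ENNReal.ofReal (heatK (t - s) (x - y)) *
        ENNReal.ofReal (g s y)) +
      ∫⁻ s in Ioo 0 t, ∫⁻ y, ENNReal.ofReal (heatK (t - s) (x - y)) *
        (ENNReal.ofReal M * uu f M U s y) := by
    have hm1 : Measurable (fun s : ℝ => ∫⁻ y, ENNReal.ofReal (heatK (t - s) (x - y)) *
        ENNReal.ofReal (g s y)) :=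
      (meas_inner (D := fun s y => ENNReal.ofReal (g s y)) hgm.ennreal_ofReal).comp
        (f := fun r : ℝ => ((t, x), r)) (by fun_prop)
    rw [← lintegral_add_left hm1]
    apply setLIntegral_congr_fun measurableSet_Ioo
    intro s hs
    simp only
    have hm2 : Measurable (fun y : E N => ENNReal.ofReal (heatK (t - s) (x - y)) *
        ENNReal.ofReal (g s y)) :=
      (hK s hs.2).mul (hgm.ennreal_ofReal.comp (f := fun y : E N => (s, y)) (by fun_prop))
    rw [← lintegral_add_left hm2]
    congr 1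
    funext y
    rw [hGt s hs.1 y, mul_add]
  have hfin : ∫⁻ s in Ioo 0 t, ∫⁻ y, ENNReal.ofReal (heatK (t - s) (x - y)) *
        (ENNReal.ofReal M * uu f M U s y) ≠ ⊤ := by
    have : ∫⁻ s in Ioo 0 t, ∫⁻ y, ENNReal.ofReal (heatK (t - s) (x - y)) *
        (ENNReal.ofReal M * uu f M U s y) ≤ ∫⁻ s in Ioo 0 t, ENNReal.ofReal M := by
      apply setLIntegral_mono' measurableSet_Ioo
      intro s hs
      have hts : 0 < t - s := by linarith [hs.2]
      calc ∫⁻ y, ENNReal.ofReal (heatK (t - s) (x - y)) * (ENNReal.ofReal M * uu f M U s y)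
          ≤ ∫⁻ y, ENNReal.ofReal (heatK (t - s) (x - y)) * ENNReal.ofReal M := by
            apply lintegral_mono
            intro y
            simp only
            gcongr
            exact mul_le_of_le_one_right' (hle s hs.1 y)
        _ = ENNReal.ofReal M := by
            rw [lintegral_mul_const' _ _ ENNReal.ofReal_ne_top, lint_heatK hts, one_mul]
    refine ne_of_lt (lt_of_le_of_lt this ?_)
    rw [setLIntegral_const]
    exact ENNReal.mul_lt_top ENNReal.ofReal_lt_top (by simp)
  have hmain := uu_eq hf hM0 hM hU ht x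
  rw [hS, ← add_assoc] at hmain
  have hmain2 := (ENNReal.add_left_inj hfin).mp hmain
  -- back to real integrals
  have hUm : Measurable (U.indicator (1 : E N → ℝ)) := measurable_one.indicator hU
  have hQr : (∫ y, heatK t (x - y) * U.indicator 1 y) =
      (∫⁻ y, ENNReal.ofReal (heatK t (x - y)) * U.indicator 1 y).toReal := by
    rw [integral_eq_lintegral_of_nonneg_ae]
    · congr 1
      apply lintegral_congr
      intro y
      rw [ENNReal.ofReal_mul (heatK_nonneg ht _)]
      congr 1
      by_cases h : y ∈ U <;> simp [h]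
    · exact Eventually.of_forall fun y => mul_nonneg (heatK_nonneg ht _)
        (indicator_nonneg (fun _ _ => zero_le_one) _)
    · have := heatK_cont (N := N) (t := t)
      exact ((by fun_prop : Measurable (fun y : E N => heatK t (x - y))).mul
        hUm).aestronglyMeasurable
  have hinner : ∀ s ∈ Ioo (0:ℝ) t, (∫ y, heatK (t - s) (x - y) * f (uu f M U s y).toReal) =
      (∫⁻ y, ENNReal.ofReal (heatK (t - s) (x - y)) * ENNReal.ofReal (g s y)).toReal := by
    intro s hs
    have hts : 0 < t - s := by linarith [hs.2]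
    have h1 : (∫ y, heatK (t - s) (x - y) * f (uu f M U s y).toReal) =
        ∫ y, heatK (t - s) (x - y) * g s y := by
      congr 1
      funext y
      simp only [hg]
      rw [ext_eq (hmem s hs.1 y)]
    rw [h1, integral_eq_lintegral_of_nonneg_ae]
    · congr 1
      apply lintegral_congr
      intro y
      rw [ENNReal.ofReal_mul (heatK_nonneg hts _)]
    · exact Eventually.of_forall fun y => mul_nonneg (heatK_nonneg hts _) (hg0 s y)
    · have := heatK_cont (N := N) (t := t - s)
      exact ((by fun_prop : Measurable (fun y : E N => heatK (t - s) (x - y))).mul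
        (hgm.comp (f := fun y : E N => (s, y)) (by fun_prop))).aestronglyMeasurable
  have hSr : (∫ s in (0:ℝ)..t, ∫ y, heatK (t - s) (x - y) * f (uu f M U s y).toReal) =
      (∫⁻ s in Ioo 0 t, ∫⁻ y, ENNReal.ofReal (heatK (t - s) (x - y)) *
        ENNReal.ofReal (g s y)).toReal := by
    rw [intervalIntegral.integral_of_le ht.le, integral_Ioc_eq_integral_Ioo,
      setIntegral_congr_fun measurableSet_Ioo hinner, integral_toReal]
    · exact ((meas_inner (D := fun s y => ENNReal.ofReal (g s y)) hgm.ennreal_ofReal).comp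
        (f := fun r : ℝ => ((t, x), r)) (by fun_prop)).aemeasurable
    · filter_upwards [ae_restrict_mem measurableSet_Ioo] with s hs
      have hts : 0 < t - s := by linarith [hs.2]
      calc ∫⁻ y, ENNReal.ofReal (heatK (t - s) (x - y)) * ENNReal.ofReal (g s y)
          ≤ ∫⁻ y, ENNReal.ofReal (heatK (t - s) (x - y)) * ENNReal.ofReal C := by
            apply lintegral_mono
            intro y
            simp only
            gcongr
            exact (le_abs_self _).trans (hC _)
        _ = ENNReal.ofReal C := by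
            rw [lintegral_mul_const' _ _ ENNReal.ofReal_ne_top, lint_heatK hts, one_mul]
        _ < ⊤ := ENNReal.ofReal_lt_top
  rw [hSr, hQr, ← ENNReal.toReal_add, ← hmain2]
  · intro h
    rw [h] at hmain2
    simp at hmain2
    exact hne t ht x hmain2
  · intro h
    rw [h] at hmain2
    simp at hmain2
    exact hne t ht x hmain2

end

end Pool.Agent.X297.KP
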