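import Pool.Agent.X297.KP.Sol

set_option autoImplicit false

open MeasureTheory Real Set Filter Topology
open scoped ENNReal

namespace Pool.Agent.X297.KP

noncomputable section

variable {N : ℕ}

/-- Uniqueness of the solution. -/
theorem unique {f : ℝ → ℝ} (hf : IsKPP f) {U : Set (E N)} {u v : ℝ → E N → ℝ}
    (hu : IsSolution f U u) (hv : IsSolution f U v) {t : ℝ} (ht : 0 < t) (x : E N) :
    v t x = u t x := by
  obtain ⟨M, hM0, hM⟩ := hf.lip
  obtain ⟨C, hC⟩ := ext_bd hf
  have h : ∀ t, 0 < t → ∀ x, ‖v t x - u t x‖ₑ ≤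
      (∫⁻ y, ENNReal.ofReal (heatK t (x - y)) * (fun _ : E N => (0 : ℝ≥0∞)) y) +
      ∫⁻ s in Ioo 0 t, ∫⁻ y, ENNReal.ofReal (heatK (t - s) (x - y)) *
        (ENNReal.ofReal M * ‖v s y - u s y‖ₑ) := by
    intro t ht x
    have e1 : v t x - u t x =
        ∫ s in (0:ℝ)..t, ∫ y, heatK (t - s) (x - y) * (ext f (v s y) - ext f (u s y)) := by
      rw [duhamel_ext hu ht x, duhamel_ext hv ht x, add_sub_add_left_eq_sub,
        ← intervalIntegral.integral_sub (inner_int hf hv t ht _) (inner_int hf hu t ht _)]
      apply intervalIntegral.integral_congr_ae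
      have hne : ∀ᵐ s : ℝ, s ≠ t := by
        simp [ae_iff]
      filter_upwards [hne] with s hst hs
      rw [uIoc_of_le ht.le] at hs
      have hts : 0 < t - s := by
        have := lt_of_le_of_ne hs.2 hst
        linarith
      rw [← integral_sub]
      · congr 1
        funext y
        ring
      · exact int_bdd_mul hts x (((ext_cont hf).measurable).comp (sol_slice hv s))
          (fun y => hC _)
      · exact int_bdd_mul hts x (((ext_cont hf).measurable).comp (sol_slice hu s))
          (fun y => hC _)
    rw [e1]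
    simp only [mul_zero, lintegral_zero, zero_add]
    rw [intervalIntegral.integral_of_le ht.le, integral_Ioc_eq_integral_Ioo]
    refine (enorm_integral_le_lintegral_enorm _).trans ?_
    apply setLIntegral_mono' measurableSet_Ioo
    intro s hs
    have hts : 0 < t - s := by linarith [hs.2]
    refine (enorm_integral_le_lintegral_enorm _).trans ?_
    apply lintegral_mono
    intro y
    simp only
    rw [enorm_mul, Real.enorm_eq_ofReal (heatK_nonneg hts _)]
    gcongr
    rw [ext_eq (hu.mem s hs.1 _), ext_eq (hv.mem s hs.1 _)]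
    have := hM _ (hv.mem s hs.1 y) _ (hu.mem s hs.1 y)
    rw [← Real.enorm_eq_ofReal hM0, ← enorm_mul]
    rw [← ofReal_norm, ← ofReal_norm]
    apply ENNReal.ofReal_le_ofReal
    rw [norm_mul, Real.norm_eq_abs, Real.norm_eq_abs, Real.norm_eq_abs, abs_of_nonneg hM0]
    exact this
  have h1 := gronwall (d := fun t x => ‖v t x - u t x‖ₑ) (by
    intro t ht x
    rw [← ofReal_norm, ← ENNReal.ofReal_one]
    apply ENNReal.ofReal_le_ofReal
    rw [Real.norm_eq_abs, abs_le]
    have h1 := hv.mem t ht x
    have h2 := hu.mem t ht x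
    constructor <;> linarith [h1.1, h1.2, h2.1, h2.2]) measurable_const hM0 h t ht x
  simp only [mul_zero, lintegral_zero, nonpos_iff_eq_zero, enorm_eq_zero] at h1
  linarith

end

end Pool.Agent.X297.KP
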