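import Pool.Agent.X297.KP.Kernel

set_option autoImplicit false

open MeasureTheory Real Set Filter Topology
open scoped ENNReal

namespace Pool.Agent.X297.KP

noncomputable section

variable {N : ℕ}

/-- `U_δ`, the points of `U` at distance at least `δ` from the boundary of `U`. -/
def shrink (U : Set (E N)) (δ : ℝ) : Set (E N) :=
  {x | x ∈ U ∧ ENNReal.ofReal δ ≤ Metric.infEDist x (frontier U)}

/-- Condition (D): the Hausdorff distance between `U` and `U_δ` is finite for some `δ > 0`. -/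
def CondD (U : Set (E N)) : Prop := ∃ δ : ℝ, 0 < δ ∧ Metric.hausdorffEDist U (shrink U δ) < ⊤

/-- The set `π_x` of the points of the closure of `U` nearest to `x`. -/
def nearest (U : Set (E N)) (x : E N) : Set (E N) :=
  {ξ | ξ ∈ closure U ∧ dist x ξ = Metric.infDist x U}

/-- The opening function `O(x)`, the supremum of the cosines of the angles between `x - ξ` and
`y - ξ`, where `ξ` is a nearest point and `y ∈ U`, `y ≠ ξ` (`-∞` if there are no such pairs). -/
def opening (U : Set (E N)) (x : E N) : EReal :=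
  ⨆ ξ ∈ nearest U x, ⨆ y ∈ U \ {ξ},
    ((inner ℝ (‖x - ξ‖⁻¹ • (x - ξ)) (‖y - ξ‖⁻¹ • (y - ξ)) : ℝ) : EReal)

/-- Condition (B): the supremum of the opening function over the points at distance `R` from `U`
has a limit `≤ 0` as `R → ∞`. -/
def CondB (U : Set (E N)) : Prop := ∃ L : EReal, L ≤ 0 ∧
  Tendsto (fun R : ℝ => ⨆ x ∈ {x : E N | Metric.infDist x U = R}, opening U x) atTop (𝓝 L)

/-- The planar set `{(x,y) : y ≤ exp(x⁴)}`. -/
def U0 : Set (E 2) := {p | p 1 ≤ Real.exp ((p 0) ^ 4)}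

theorem U0_closed : IsClosed U0 := by
  apply isClosed_le <;> fun_prop

/-- The point `(a,b)`. -/
def pt (a b : ℝ) : E 2 := WithLp.toLp 2 ![a, b]

@[simp] theorem pt0 (a b : ℝ) : pt a b 0 = a := by simp [pt]
@[simp] theorem pt1 (a b : ℝ) : pt a b 1 = b := by simp [pt]

theorem pt_eta (p : E 2) : pt (p 0) (p 1) = p := by
  ext i
  fin_cases i <;> simp

theorem pt_cont : Continuous (fun q : ℝ × ℝ => pt q.1 q.2) := by
  unfold pt
  apply (PiLp.continuous_toLp 2 (fun _ : Fin 2 => ℝ)).comp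
  apply continuous_pi
  intro i
  fin_cases i <;> simp <;> fun_prop

theorem norm_sq2 (p : E 2) : ‖p‖ ^ 2 = (p 0) ^ 2 + (p 1) ^ 2 := by
  rw [EuclideanSpace.norm_sq_eq, Fin.sum_univ_two]
  simp

theorem abs_le_norm (p : E 2) (i : Fin 2) : |p i| ≤ ‖p‖ := by
  have := PiLp.norm_apply_le p i
  simpa using this

theorem norm_le_two (p : E 2) : ‖p‖ ≤ |p 0| + |p 1| := by
  have h := norm_sq2 p
  have h0 := abs_nonneg (p 0)
  have h1 := abs_nonneg (p 1)
  apply le_of_sq_le_sq _ (by positivity)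
  rw [h, ← sq_abs (p 0), ← sq_abs (p 1)]
  nlinarith [mul_nonneg h0 h1]

theorem U0_connected : IsConnected U0 := by
  have h : U0 = (fun q : ℝ × ℝ => pt q.1 (Real.exp (q.1 ^ 4) + q.2)) '' (univ ×ˢ Iic 0) := by
    ext p
    constructor
    · intro hp
      refine ⟨(p 0, p 1 - Real.exp ((p 0) ^ 4)), ⟨mem_univ _, ?_⟩, ?_⟩
      · simp only [mem_Iic]
        have : p 1 ≤ Real.exp ((p 0) ^ 4) := hp
        linarith
      · simp only
        rw [add_sub_cancel]
        exact pt_eta p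
    · rintro ⟨q, ⟨_, hq⟩, rfl⟩
      simp only [mem_Iic] at hq
      show pt _ _ 1 ≤ Real.exp ((pt _ _ 0) ^ 4)
      simp only [pt0, pt1]
      linarith
  rw [h]
  apply IsConnected.image
  · exact isConnected_univ.prod isConnected_Iic
  · apply Continuous.continuousOn
    exact pt_cont.comp (f := fun q : ℝ × ℝ => (q.1, Real.exp (q.1 ^ 4) + q.2)) (by fun_prop)

theorem exp4_le {a b : ℝ} (h : |a| ≤ |b|) : Real.exp (a ^ 4) ≤ Real.exp (b ^ 4) := by
  apply Real.exp_le_exp.mpr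
  have h1 : a ^ 4 = |a| ^ 4 := by
    rw [← abs_pow]; exact (abs_of_nonneg (by positivity)).symm
  have h2 : b ^ 4 = |b| ^ 4 := by
    rw [← abs_pow]; exact (abs_of_nonneg (by positivity)).symm
  rw [h1, h2]
  exact pow_le_pow_left₀ (abs_nonneg _) h 4

theorem U0_D : CondD U0 := by
  refine ⟨1 / 2, by norm_num, ?_⟩
  refine lt_of_le_of_lt (Metric.hausdorffEDist_le_of_mem_edist (r := ENNReal.ofReal 2) ?_ ?_)
    ENNReal.ofReal_lt_top
  · intro x hx
    obtain ⟨σ, hσ, hσx⟩ : ∃ σ : ℝ, |σ| = 1 ∧ |x 0 + σ| = |x 0| + 1 := by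
      rcases le_total 0 (x 0) with h | h
      · refine ⟨1, by simp, ?_⟩
        rw [abs_of_nonneg h, abs_of_nonneg (by linarith)]
      · refine ⟨-1, by simp, ?_⟩
        rw [abs_of_nonpos h, abs_of_nonpos (by linarith)]
        ring
    have key : Metric.ball (x + pt σ (-1)) (1 / 2) ⊆ U0 := by
      intro q hq
      rw [mem_ball_iff_norm] at hq
      have h0 := (abs_le_norm _ 0).trans hq.le
      have h1 := (abs_le_norm _ 1).trans hq.le
      simp only [PiLp.sub_apply, PiLp.add_apply, pt0, pt1] at h0 h1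
      show q 1 ≤ Real.exp ((q 0) ^ 4)
      have hx' : x 1 ≤ Real.exp ((x 0) ^ 4) := hx
      have h2 : |x 0| ≤ |q 0| := by
        have : |x 0 + σ| ≤ |q 0| + |q 0 - (x 0 + σ)| := by
          calc |x 0 + σ| = |q 0 - (q 0 - (x 0 + σ))| := by ring_nf
            _ ≤ _ := abs_sub _ _
        linarith
      have h3 := exp4_le h2
      have h4 := (abs_le.mp h1).2
      linarith
    refine ⟨x + pt σ (-1), ⟨key (Metric.mem_ball_self (by norm_num)), ?_⟩, ?_⟩
    · rw [Metric.le_infEDist]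
      intro q hq
      by_contra hlt
      push Not at hlt
      rw [edist_dist] at hlt
      have hlt' := (ENNReal.ofReal_lt_ofReal_iff (by norm_num)).mp hlt
      have hqb : q ∈ Metric.ball (x + pt σ (-1)) (1 / 2) := by
        rw [Metric.mem_ball, dist_comm]; exact hlt'
      have hqi : q ∈ interior U0 := by
        rw [mem_interior]
        exact ⟨_, key, Metric.isOpen_ball, hqb⟩
      exact hq.2 hqi
    · rw [edist_dist]
      apply ENNReal.ofReal_le_ofReal
      rw [dist_self_add_right]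
      refine (norm_le_two _).trans ?_
      simp [hσ]
      norm_num
  · intro x hx
    exact ⟨x, hx.1, by simp⟩

theorem infDist_ge {R : ℝ} (hR : 0 ≤ R) :
    R ≤ Metric.infDist (pt 0 (Real.exp (R ^ 4) + R)) U0 := by
  rw [Metric.le_infDist ⟨_, U0_connected.nonempty.some_mem⟩]
  intro ξ hξ
  have hξ' : ξ 1 ≤ Real.exp ((ξ 0) ^ 4) := hξ
  rw [dist_eq_norm]
  rcases le_total R |ξ 0| with h | h
  · have := abs_le_norm (pt 0 (Real.exp (R ^ 4) + R) - ξ) 0
    simp only [PiLp.sub_apply, pt0, zero_sub, abs_neg] at this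
    linarith
  · have h1 := exp4_le (a := ξ 0) (b := R) (by rwa [abs_of_nonneg hR])
    have := abs_le_norm (pt 0 (Real.exp (R ^ 4) + R) - ξ) 1
    simp only [PiLp.sub_apply, pt1] at this
    have h2 := le_abs_self (Real.exp (R ^ 4) + R - ξ 1)
    linarith

theorem exists_dist {R : ℝ} (hR : 0 ≤ R) : ∃ s : ℝ, Metric.infDist (pt 0 s) U0 = R := by
  have hc : Continuous (fun s : ℝ => Metric.infDist (pt 0 s) U0) :=
    (Metric.continuous_infDist_pt U0).comp
      (pt_cont.comp (f := fun s : ℝ => ((0 : ℝ), s)) (by fun_prop))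
  have h1 : Metric.infDist (pt 0 1) U0 = 0 := by
    apply Metric.infDist_zero_of_mem
    show pt 0 1 1 ≤ Real.exp ((pt 0 1 0) ^ 4)
    simp
  have h2 := infDist_ge hR
  have hle : (1 : ℝ) ≤ Real.exp (R ^ 4) + R := by
    have : 1 ≤ Real.exp (R ^ 4) := Real.one_le_exp (by positivity)
    linarith
  have := intermediate_value_Icc hle hc.continuousOn
  simp only [h1] at this
  obtain ⟨s, _, hs⟩ := this ⟨hR, h2⟩
  exact ⟨s, hs⟩

theorem exp_ineq {R : ℝ} (hR : 2 ≤ R) :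
    R + Real.exp ((R / 2) ^ 4) ≤ Real.exp ((9 * R / 10) ^ 4) := by
  have h1 : (R / 2) ^ 4 + R ≤ (9 * R / 10) ^ 4 := by
    have : 0 ≤ R * ((0.6561 - 0.0625) * R ^ 3 - 1) := by
      apply mul_nonneg (by linarith)
      have : (8 : ℝ) ≤ R ^ 3 := by nlinarith [sq_nonneg (R - 2), sq_nonneg R]
      nlinarith
    nlinarith
  calc R + Real.exp ((R / 2) ^ 4) ≤ Real.exp ((R / 2) ^ 4) * (R + 1) := by
        have : 1 ≤ Real.exp ((R / 2) ^ 4) := Real.one_le_exp (by positivity)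
        nlinarith
    _ ≤ Real.exp ((R / 2) ^ 4) * Real.exp R := by
        gcongr
        exact Real.add_one_le_exp R
    _ = Real.exp ((R / 2) ^ 4 + R) := (Real.exp_add _ _).symm
    _ ≤ _ := Real.exp_le_exp.mpr h1

theorem sup_ge {R : ℝ} (hR : 2 ≤ R) :
    ((1 / 2 : ℝ) : EReal) ≤ ⨆ x ∈ {x : E 2 | Metric.infDist x U0 = R}, opening U0 x := by
  obtain ⟨s, hs⟩ := exists_dist (by linarith : (0:ℝ) ≤ R)
  obtain ⟨ξ, hξ, hd⟩ := U0_closed.exists_infDist_eq_dist U0_connected.nonempty (pt 0 s)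
  have hξ' : ξ 1 ≤ Real.exp ((ξ 0) ^ 4) := hξ
  have hdR : ‖pt 0 s - ξ‖ = R := by rw [← dist_eq_norm, ← hd, hs]
  have hbig : R / 2 ≤ |ξ 0| := by
    by_contra hlt
    push Not at hlt
    have h1 := exp4_le (a := ξ 0) (b := R / 2) (by rw [abs_of_nonneg (by linarith : 0 ≤ R / 2)]; exact hlt.le)
    have h2 := abs_le_norm (pt 0 s - ξ) 1
    simp only [PiLp.sub_apply, pt1] at h2
    rw [hdR] at h2
    have h3 := (abs_le.mp h2).2
    have h4 := exp_ineq hR
    have hmem : pt (9 * R / 10) s ∈ U0 := by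
      show pt _ s 1 ≤ Real.exp ((pt _ s 0) ^ 4)
      simp only [pt0, pt1]
      linarith
    have h5 := Metric.infDist_le_dist_of_mem (x := pt 0 s) hmem
    rw [hs, dist_eq_norm] at h5
    have h6 := norm_le_two (pt 0 s - pt (9 * R / 10) s)
    simp only [PiLp.sub_apply, pt0, pt1, zero_sub, abs_neg, sub_self, abs_zero, add_zero] at h6
    rw [abs_of_nonneg (by linarith)] at h6
    linarith
  have hpos : 0 < |ξ 0| := by linarith
  have hne : ξ 0 ≠ 0 := abs_pos.mp hpos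
  have hval : (inner ℝ (‖pt 0 s - ξ‖⁻¹ • (pt 0 s - ξ))
      (‖pt (-ξ 0) (ξ 1) - ξ‖⁻¹ • (pt (-ξ 0) (ξ 1) - ξ)) : ℝ) = |ξ 0| / R := by
    have hn : ‖pt (-ξ 0) (ξ 1) - ξ‖ = 2 * |ξ 0| := by
      have h7 := norm_sq2 (pt (-ξ 0) (ξ 1) - ξ)
      simp only [PiLp.sub_apply, pt0, pt1, sub_self] at h7
      have h8 : ‖pt (-ξ 0) (ξ 1) - ξ‖ ^ 2 = (2 * |ξ 0|) ^ 2 := by
        rw [h7, mul_pow, sq_abs]; ring
      exact (pow_left_inj₀ (norm_nonneg _) (by positivity) two_ne_zero).mp h8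
    rw [inner_smul_left, inner_smul_right, hdR, hn]
    simp only [PiLp.inner_apply, Fin.sum_univ_two, PiLp.sub_apply, pt0, pt1, conj_trivial]
    simp only [RCLike.inner_apply, conj_trivial]
    have h9 : |ξ 0| * |ξ 0| = ξ 0 * ξ 0 := abs_mul_abs_self _
    field_simp
    nlinarith
  have hle : (1 / 2 : ℝ) ≤ |ξ 0| / R := by
    rw [div_le_div_iff₀ (by norm_num) (by linarith)]
    linarith
  refine le_trans (EReal.coe_le_coe_iff.mpr hle) ?_
  rw [← hval]
  have hmemx : pt 0 s ∈ {x : E 2 | Metric.infDist x U0 = R} := hs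
  refine le_trans ?_ (le_biSup (fun x => opening U0 x) hmemx)
  unfold opening
  have hmξ : ξ ∈ nearest U0 (pt 0 s) := ⟨subset_closure hξ, hd.symm⟩
  refine le_trans ?_ (le_biSup (fun ξ => ⨆ y ∈ U0 \ {ξ},
    ((inner ℝ (‖pt 0 s - ξ‖⁻¹ • (pt 0 s - ξ)) (‖y - ξ‖⁻¹ • (y - ξ)) : ℝ) : EReal)) hmξ)
  have hmy : pt (-ξ 0) (ξ 1) ∈ U0 \ {ξ} := by
    refine ⟨?_, ?_⟩
    · show pt _ _ 1 ≤ Real.exp ((pt _ _ 0) ^ 4)
      simp only [pt0, pt1]
      have : (-ξ 0) ^ 4 = (ξ 0) ^ 4 := by ring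
      rw [this]
      exact hξ'
    · intro h
      have h0 : pt (-ξ 0) (ξ 1) 0 = ξ 0 := by rw [mem_singleton_iff.mp h]
      simp only [pt0] at h0
      apply hne
      linarith
  exact le_biSup (fun y => ((inner ℝ (‖pt 0 s - ξ‖⁻¹ • (pt 0 s - ξ))
    (‖y - ξ‖⁻¹ • (y - ξ)) : ℝ) : EReal)) hmy

theorem U0_not_B : ¬ CondB U0 := by
  rintro ⟨L, hL, ht⟩
  have h1 : ((1 / 2 : ℝ) : EReal) ≤ L := by
    apply ge_of_tendsto ht
    filter_upwards [eventually_ge_atTop (2 : ℝ)] with R hR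
    exact sup_ge hR
  have h2 := h1.trans hL
  have h3 : (1 / 2 : ℝ) ≤ 0 := by exact_mod_cast h2
  norm_num at h3

end

end Pool.Agent.X297.KP
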