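import Pool.Agent.X297.KP.Sol
import Pool.Agent.X297.KP.Geo

set_option autoImplicit false

open MeasureTheory Real Set Filter Topology
open scoped ENNReal

namespace Pool.Agent.X297.KP

noncomputable section

/-- The one-dimensional heat kernel. -/
def k1 (t a : ℝ) : ℝ := (√(4 * π * t))⁻¹ * Real.exp (-(a ^ 2 / (4 * t)))

theorem k1_nonneg (t a : ℝ) : 0 ≤ k1 t a := by unfold k1; positivity

theorem k1_cont (t : ℝ) : Continuous (k1 t) := by unfold k1; fun_prop

theorem k1_le {t : ℝ} (ht : 0 < t) (a : ℝ) : k1 t a ≤ (√(4 * π * t))⁻¹ := by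
  unfold k1
  have : Real.exp (-(a ^ 2 / (4 * t))) ≤ 1 := by
    apply Real.exp_le_one_iff.mpr
    have : 0 ≤ a ^ 2 / (4 * t) := by positivity
    linarith
  exact mul_le_of_le_one_right (by positivity) this

theorem k1_int {t : ℝ} (ht : 0 < t) : ∫ a, k1 t a = 1 := by
  unfold k1
  rw [integral_const_mul]
  have h := integral_gaussian (1 / (4 * t))
  have h2 : ∀ x : ℝ, -(x ^ 2 / (4 * t)) = -(1 / (4 * t)) * x ^ 2 := by
    intro x; ring
  simp_rw [h2]
  rw [h]
  have h3 : π / (1 / (4 * t)) = 4 * π * t := by field_simp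
  rw [h3]
  exact inv_mul_cancel₀ (by positivity)

theorem k1_lint {t : ℝ} (ht : 0 < t) (x : ℝ) : ∫⁻ b, ENNReal.ofReal (k1 t (x - b)) = 1 := by
  have hi : Integrable (k1 t) := by
    by_contra h
    have := integral_undef h
    rw [k1_int ht] at this
    norm_num at this
  rw [← ofReal_integral_eq_lintegral_ofReal (hi.comp_sub_left x)
    (Eventually.of_forall fun y => k1_nonneg t _), integral_sub_left_eq_self (k1 t) volume x,
    k1_int ht]
  simp

theorem heatK_two {t : ℝ} (ht : 0 < t) (x : E 2) : heatK t x = k1 t (x 0) * k1 t (x 1) := by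
  unfold heatK k1
  have h1 : (4 * π * t) ^ (-(((2 : ℕ) : ℝ) / 2)) = (√(4 * π * t))⁻¹ * (√(4 * π * t))⁻¹ := by
    rw [← mul_inv, Real.mul_self_sqrt (by positivity)]
    have h2 : -(((2 : ℕ) : ℝ) / 2) = -1 := by norm_num
    rw [h2, Real.rpow_neg (by positivity), Real.rpow_one]
  rw [h1, norm_sq2, mul_mul_mul_comm, ← Real.exp_add]
  congr 2
  ring

theorem lint_two {F : ℝ × ℝ → ℝ≥0∞} (hF : Measurable F) :
    ∫⁻ y : E 2, F (y 0, y 1) = ∫⁻ b, ∫⁻ a, F (a, b) := by
  have hmp := (volume_preserving_finTwoArrow ℝ).comp (PiLp.volume_preserving_ofLp (Fin 2))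
  have h1 := hmp.lintegral_comp hF
  rw [← lintegral_prod_symm' F hF, ← Measure.volume_eq_prod, ← h1]
  rfl

/-- Upper bound for the heat flow of a set whose horizontal slices, outside the bad heights `B`,
have length at most `w`. -/
theorem slice_bound {t : ℝ} (ht : 0 < t) (x : E 2) {S : Set (ℝ × ℝ)} (hS : MeasurableSet S)
    {B : Set ℝ} (hB : MeasurableSet B) {w : ℝ≥0∞}
    (hw : ∀ b, b ∉ B → volume {a | (a, b) ∈ S} ≤ w) :
    ∫⁻ y : E 2, ENNReal.ofReal (heatK t (x - y)) * S.indicator 1 (y 0, y 1) ≤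
      (∫⁻ b in B, ENNReal.ofReal (k1 t (x 1 - b))) + ENNReal.ofReal (√(4 * π * t))⁻¹ * w := by
  have hm : Measurable (fun q : ℝ × ℝ => ENNReal.ofReal (k1 t (x 0 - q.1)) *
      ENNReal.ofReal (k1 t (x 1 - q.2)) * S.indicator 1 q) := by
    have h1 := k1_cont t
    have h2 : Measurable (S.indicator (1 : ℝ × ℝ → ℝ≥0∞)) := measurable_one.indicator hS
    fun_prop
  have e : ∫⁻ y : E 2, ENNReal.ofReal (heatK t (x - y)) * S.indicator 1 (y 0, y 1) =
      ∫⁻ b, ∫⁻ a, ENNReal.ofReal (k1 t (x 0 - a)) * ENNReal.ofReal (k1 t (x 1 - b)) *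
        S.indicator 1 (a, b) := by
    rw [← lint_two hm]
    congr 1
    funext y
    rw [heatK_two ht, ENNReal.ofReal_mul (k1_nonneg _ _)]
    simp
  rw [e]
  have hk : ∀ c : ℝ, Measurable (fun a => ENNReal.ofReal (k1 t (c - a))) := by
    intro c
    have h1 := k1_cont t
    fun_prop
  calc ∫⁻ b, ∫⁻ a, ENNReal.ofReal (k1 t (x 0 - a)) * ENNReal.ofReal (k1 t (x 1 - b)) *
        S.indicator 1 (a, b)
      ≤ ∫⁻ b, (B.indicator (fun b => ENNReal.ofReal (k1 t (x 1 - b))) b +
          ENNReal.ofReal (k1 t (x 1 - b)) * (ENNReal.ofReal (√(4 * π * t))⁻¹ * w)) := by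
        apply lintegral_mono
        intro b
        simp only
        by_cases hb : b ∈ B
        · rw [indicator_of_mem hb]
          refine le_trans ?_ le_self_add
          calc ∫⁻ a, ENNReal.ofReal (k1 t (x 0 - a)) * ENNReal.ofReal (k1 t (x 1 - b)) *
                S.indicator 1 (a, b)
              ≤ ∫⁻ a, ENNReal.ofReal (k1 t (x 0 - a)) * ENNReal.ofReal (k1 t (x 1 - b)) := by
                apply lintegral_mono
                intro a
                apply mul_le_of_le_one_right'
                by_cases h : (a, b) ∈ S <;> simp [h]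
            _ = ENNReal.ofReal (k1 t (x 1 - b)) := by
                rw [lintegral_mul_const _ (hk _), k1_lint ht, one_mul]
        · rw [indicator_of_notMem hb, zero_add]
          have hSb : MeasurableSet {a | (a, b) ∈ S} :=
            measurable_prodMk_right hS
          calc ∫⁻ a, ENNReal.ofReal (k1 t (x 0 - a)) * ENNReal.ofReal (k1 t (x 1 - b)) *
                S.indicator 1 (a, b)
              ≤ ∫⁻ a, ENNReal.ofReal (k1 t (x 1 - b)) * (ENNReal.ofReal (√(4 * π * t))⁻¹ *
                  {a | (a, b) ∈ S}.indicator 1 a) := by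
                apply lintegral_mono
                intro a
                simp only
                by_cases h : (a, b) ∈ S
                · simp only [Pi.one_apply, mul_one, indicator,
                    mem_ofPred_eq, h, if_true]
                  rw [mul_comm]
                  gcongr
                  exact k1_le ht _
                · simp [h]
            _ = ENNReal.ofReal (k1 t (x 1 - b)) * (ENNReal.ofReal (√(4 * π * t))⁻¹ *
                  volume {a | (a, b) ∈ S}) := by
                have hi : Measurable ({a | (a, b) ∈ S}.indicator (1 : ℝ → ℝ≥0∞)) :=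
                  measurable_one.indicator hSb
                rw [lintegral_const_mul _ (hi.const_mul _), lintegral_const_mul _ hi,
                  lintegral_indicator_one hSb]
            _ ≤ _ := by
                gcongr
                exact hw b hb
    _ = _ := by
        rw [lintegral_add_left ((hk _).indicator hB), lintegral_indicator hB,
          lintegral_mul_const _ (hk _), k1_lint ht, one_mul]

theorem tail_bound {t : ℝ} (ht : 0 < t) (x : ℝ) {l : ℝ} (hl : 0 ≤ l) {B : Set ℝ}
    (hB : MeasurableSet B) (h : ∀ b ∈ B, l ≤ |x - b|) :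
    ∫⁻ b in B, ENNReal.ofReal (k1 t (x - b)) ≤ ENNReal.ofReal (√2 * Real.exp (-(l ^ 2 / (8 * t)))) := by
  have hk : Measurable (fun a => ENNReal.ofReal (k1 (2 * t) (x - a))) := by
    have h1 := k1_cont (2 * t)
    fun_prop
  calc ∫⁻ b in B, ENNReal.ofReal (k1 t (x - b))
      ≤ ∫⁻ b in B, ENNReal.ofReal (√2 * Real.exp (-(l ^ 2 / (8 * t)))) *
          ENNReal.ofReal (k1 (2 * t) (x - b)) := by
        apply setLIntegral_mono' hB
        intro b hb
        rw [← ENNReal.ofReal_mul (by positivity)]
        apply ENNReal.ofReal_le_ofReal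
        unfold k1
        have h1 : (√(4 * π * t))⁻¹ = √2 * (√(4 * π * (2 * t)))⁻¹ := by
          have h2 : √(4 * π * (2 * t)) = √2 * √(4 * π * t) := by
            rw [← Real.sqrt_mul (by norm_num)]
            congr 1
            ring
          rw [h2]
          have h3 : 0 < √(4 * π * t) := by positivity
          field_simp
        have h4 : Real.exp (-((x - b) ^ 2 / (4 * t))) ≤
            Real.exp (-(l ^ 2 / (8 * t))) * Real.exp (-((x - b) ^ 2 / (4 * (2 * t)))) := by
          rw [← Real.exp_add]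
          apply Real.exp_le_exp.mpr
          have h5 : l ^ 2 ≤ (x - b) ^ 2 := by
            rw [← sq_abs (x - b)]
            exact pow_le_pow_left₀ hl (h b hb) 2
          have h6 : l ^ 2 / (8 * t) ≤ (x - b) ^ 2 / (8 * t) := by gcongr
          have h7 : (x - b) ^ 2 / (4 * t) = (x - b) ^ 2 / (8 * t) + (x - b) ^ 2 / (8 * t) := by
            field_simp
            ring
          have h8 : (x - b) ^ 2 / (4 * (2 * t)) = (x - b) ^ 2 / (8 * t) := by
            congr 1
            ring
          rw [h7, h8]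
          linarith
        rw [h1]
        have h9 : 0 ≤ √2 * (√(4 * π * (2 * t)))⁻¹ := by positivity
        calc √2 * (√(4 * π * (2 * t)))⁻¹ * Real.exp (-((x - b) ^ 2 / (4 * t)))
            ≤ √2 * (√(4 * π * (2 * t)))⁻¹ * (Real.exp (-(l ^ 2 / (8 * t))) *
              Real.exp (-((x - b) ^ 2 / (4 * (2 * t))))) := mul_le_mul_of_nonneg_left h4 h9
          _ = _ := by ring
    _ ≤ ∫⁻ b, ENNReal.ofReal (√2 * Real.exp (-(l ^ 2 / (8 * t)))) *
          ENNReal.ofReal (k1 (2 * t) (x - b)) := setLIntegral_le_lintegral _ _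
    _ = _ := by
        rw [lintegral_const_mul _ hk, k1_lint (by positivity), mul_one]

/-- The solution is close to `1` in the part of the plane which has been filled. -/
theorem near_one {f : ℝ → ℝ} (hf : IsKPP f) {u : ℝ → E 2 → ℝ} (hu : IsSolution f U0 u)
    {t : ℝ} (ht : 0 < t) (x : E 2) {W : ℝ} (hW : 0 ≤ W) (hxW : x 1 + t ≤ Real.exp (W ^ 4)) :
    1 - u t x ≤ √2 * Real.exp (-(t / 8)) + (√(4 * π * t))⁻¹ * (2 * W) := by
  have h1 := one_sub_le hf U0_closed.measurableSet hu ht x
  set S : Set (ℝ × ℝ) := {q | Real.exp (q.1 ^ 4) < q.2} with hS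
  have hSm : MeasurableSet S := by
    apply measurableSet_lt <;> fun_prop
  have h2 : ∀ y : E 2, U0ᶜ.indicator (1 : E 2 → ℝ≥0∞) y = S.indicator 1 (y 0, y 1) := by
    intro y
    by_cases hy : y ∈ U0
    · have hy' : (y 0, y 1) ∉ S := by
        simp only [hS, mem_ofPred_eq, not_lt]
        exact hy
      simp [hy, hy']
    · have hy' : (y 0, y 1) ∈ S := by
        simp only [hS, mem_ofPred_eq]
        exact not_le.mp hy
      simp [hy, hy']
  simp_rw [h2] at h1
  have h3 := slice_bound ht x hSm (B := Ioi (x 1 + t)) measurableSet_Ioi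
    (w := ENNReal.ofReal (2 * W)) (by
      intro b hb
      simp only [mem_Ioi, not_lt] at hb
      have hsub : {a | (a, b) ∈ S} ⊆ Ioo (-W) W := by
        intro a ha
        simp only [hS, mem_ofPred_eq] at ha
        have h4 : a ^ 4 < W ^ 4 := Real.exp_lt_exp.mp (by linarith)
        rw [mem_Ioo, ← abs_lt]
        have h5 : |a| ^ 4 < W ^ 4 := by
          rwa [← abs_pow, abs_of_nonneg (by positivity : 0 ≤ a ^ 4)]
        exact lt_of_pow_lt_pow_left₀ 4 hW h5
      refine (measure_mono hsub).trans ?_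
      rw [Real.volume_Ioo]
      apply ENNReal.ofReal_le_ofReal
      linarith)
  have h4 := tail_bound ht (x 1) ht.le (B := Ioi (x 1 + t)) measurableSet_Ioi (by
    intro b hb
    simp only [mem_Ioi] at hb
    rw [abs_sub_comm]
    exact le_trans (by linarith) (le_abs_self _))
  have h5 := h1.trans (h3.trans (add_le_add_left h4 _))
  rw [← ENNReal.ofReal_mul (by positivity), ← ENNReal.ofReal_add (by positivity)
    (by positivity)] at h5
  have h6 := (ENNReal.ofReal_le_ofReal_iff (by positivity)).mp h5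
  have h7 : t ^ 2 / (8 * t) = t / 8 := by
    field_simp
  rwa [h7] at h6

theorem four_mul_le {a c : ℝ} (ha : 1 ≤ a) (hac : a ≤ c) : 4 * (c - a) ≤ c ^ 4 - a ^ 4 := by
  have h1 : c ^ 4 - a ^ 4 = (c - a) * (c ^ 3 + c ^ 2 * a + c * a ^ 2 + a ^ 3) := by ring
  rw [h1]
  have h2 : 1 ≤ c := ha.trans hac
  have h3 : (4 : ℝ) ≤ c ^ 3 + c ^ 2 * a + c * a ^ 2 + a ^ 3 := by
    have e1 : 1 ≤ c ^ 3 := one_le_pow₀ h2
    have e2 : 1 ≤ c ^ 2 * a := one_le_mul_of_one_le_of_one_le (one_le_pow₀ h2) ha
    have e3 : 1 ≤ c * a ^ 2 := one_le_mul_of_one_le_of_one_le h2 (one_le_pow₀ ha)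
    have e4 : 1 ≤ a ^ 3 := one_le_pow₀ ha
    linarith
  nlinarith

/-- The slices of the symmetric difference of `U0` and a vertical translate are short. -/
theorem slice_short {h b : ℝ} (hh : 0 < h) (hb : Real.exp 1 ≤ b) :
    volume {a : ℝ | b ≤ Real.exp (a ^ 4) ∧ Real.exp (a ^ 4) < b + h} ≤
      ENNReal.ofReal (h / (2 * b)) := by
  have hb0 : 0 < b := lt_of_lt_of_le (Real.exp_pos 1) hb
  set T : Set ℝ := {a : ℝ | 0 < a ∧ b ≤ Real.exp (a ^ 4) ∧ Real.exp (a ^ 4) < b + h} with hT
  have hTdiam : volume T ≤ ENNReal.ofReal (h / (4 * b)) := by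
    refine (Real.volume_le_diam T).trans ?_
    apply Metric.ediam_le
    have key : ∀ a ∈ T, ∀ c ∈ T, a ≤ c → c - a ≤ h / (4 * b) := by
      intro a ha c hc hac
      have ha1 : 1 ≤ a := by
        have h1 : Real.exp 1 ≤ Real.exp (a ^ 4) := hb.trans ha.2.1
        have h2 := Real.exp_le_exp.mp h1
        by_contra hlt
        push Not at hlt
        have : a ^ 4 < 1 := pow_lt_one₀ ha.1.le hlt (by norm_num)
        linarith
      have h3 := four_mul_le ha1 hac
      have h4 : Real.exp (a ^ 4) * (c ^ 4 - a ^ 4) ≤ Real.exp (c ^ 4) - Real.exp (a ^ 4) := by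
        have h5 : Real.exp (c ^ 4) = Real.exp (a ^ 4) * Real.exp (c ^ 4 - a ^ 4) := by
          rw [← Real.exp_add]; congr 1; ring
        have h6 := Real.add_one_le_exp (c ^ 4 - a ^ 4)
        have h7 := Real.exp_pos (a ^ 4)
        rw [h5]
        nlinarith
      have h8 : b * (4 * (c - a)) ≤ h := by
        have h9 : b * (4 * (c - a)) ≤ Real.exp (a ^ 4) * (c ^ 4 - a ^ 4) := by
          apply mul_le_mul ha.2.1 h3 (by linarith) (Real.exp_pos _).le
        have := hc.2.2
        have := ha.2.1
        linarith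
      rw [le_div_iff₀ (by positivity)]
      linarith
    intro a ha c hc
    rw [edist_dist, Real.dist_eq]
    apply ENNReal.ofReal_le_ofReal
    rcases le_total a c with h' | h'
    · rw [abs_sub_comm, abs_of_nonneg (by linarith)]
      exact key a ha c hc h'
    · rw [abs_of_nonneg (by linarith)]
      exact key c hc a ha h'
  have hsub : {a : ℝ | b ≤ Real.exp (a ^ 4) ∧ Real.exp (a ^ 4) < b + h} ⊆ T ∪ Neg.neg ⁻¹' T := by
    intro a ha
    have hne : a ≠ 0 := by
      rintro rfl
      have h1 : b ≤ Real.exp ((0:ℝ) ^ 4) := ha.1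
      have h2 : Real.exp 0 < Real.exp 1 := Real.exp_lt_exp.mpr (by norm_num)
      simp only [ne_eq, OfNat.ofNat_ne_zero, not_false_eq_true, zero_pow] at h1
      linarith
    rcases lt_or_gt_of_ne hne with h' | h'
    · right
      refine ⟨by linarith, ?_⟩
      have : (-a) ^ 4 = a ^ 4 := by ring
      rw [this]
      exact ha
    · left
      exact ⟨h', ha⟩
  refine (measure_mono hsub).trans ((measure_union_le _ _).trans ?_)
  rw [show volume (Neg.neg ⁻¹' T) = volume T from by
    rw [Measure.measure_preimage_neg]]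
  calc volume T + volume T ≤ ENNReal.ofReal (h / (4 * b)) + ENNReal.ofReal (h / (4 * b)) :=
        add_le_add hTdiam hTdiam
    _ = _ := by
        rw [← ENNReal.ofReal_add (by positivity) (by positivity)]
        congr 1
        field_simp
        ring

/-- The solution hardly depends on the vertical coordinate in the part which has not been
filled. -/
theorem vert {f : ℝ → ℝ} (hf : IsKPP f) {M : ℝ} (hM0 : 0 ≤ M)
    (hM : ∀ a ∈ Icc (0:ℝ) 1, ∀ b ∈ Icc (0:ℝ) 1, |f a - f b| ≤ M * |a - b|)
    {u : ℝ → E 2 → ℝ} (hu : IsSolution f U0 u) {h : ℝ} (hh : 0 < h)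
    {t : ℝ} (ht : 0 < t) (x : E 2) (hx : 6 ≤ x 1) :
    |u t (x + pt 0 h) - u t x| ≤ Real.exp (M * t) *
      (√2 * Real.exp (-((x 1) ^ 2 / (32 * t))) + (√(4 * π * t))⁻¹ * (h / x 1)) := by
  have h1 := diff_le hf hM0 hM U0_closed.measurableSet hu (pt 0 h) ht x
  set S : Set (ℝ × ℝ) := {q | q.2 ≤ Real.exp (q.1 ^ 4) ∧ Real.exp (q.1 ^ 4) < q.2 + h} with hS
  have hSm : MeasurableSet S := by
    have e1 : MeasurableSet {q : ℝ × ℝ | q.2 ≤ Real.exp (q.1 ^ 4)} := by
      apply measurableSet_le <;> fun_prop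
    have e2 : MeasurableSet {q : ℝ × ℝ | Real.exp (q.1 ^ 4) < q.2 + h} := by
      apply measurableSet_lt <;> fun_prop
    exact e1.inter e2
  have h2 : ∀ y : E 2, ‖U0.indicator (1 : E 2 → ℝ) (y + pt 0 h) - U0.indicator 1 y‖ₑ =
      S.indicator 1 (y 0, y 1) := by
    intro y
    by_cases hy : y ∈ U0
    · by_cases hy2 : y + pt 0 h ∈ U0
      · have hy' : (y 0, y 1) ∉ S := by
          simp only [hS, mem_ofPred_eq, not_and, not_lt]
          intro _
          have : (y + pt 0 h) 1 ≤ Real.exp (((y + pt 0 h) 0) ^ 4) := hy2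
          simpa using this
        simp [hy, hy2, hy']
      · have hy' : (y 0, y 1) ∈ S := by
          simp only [hS, mem_ofPred_eq]
          refine ⟨hy, ?_⟩
          have : ¬ ((y + pt 0 h) 1 ≤ Real.exp (((y + pt 0 h) 0) ^ 4)) := hy2
          simpa using this
        simp [hy, hy2, hy']
    · have hy2 : y + pt 0 h ∉ U0 := by
        intro h3
        apply hy
        have h4 : (y + pt 0 h) 1 ≤ Real.exp (((y + pt 0 h) 0) ^ 4) := h3
        simp only [PiLp.add_apply, pt0, pt1, add_zero] at h4
        show y 1 ≤ Real.exp ((y 0) ^ 4)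
        linarith
      have hy' : (y 0, y 1) ∉ S := by
        simp only [hS, mem_ofPred_eq, not_and, not_lt]
        intro h3
        exact absurd h3 hy
      simp [hy, hy2, hy']
  simp_rw [h2] at h1
  have he : Real.exp 1 ≤ 3 := by
    have := Real.exp_one_lt_d9
    linarith
  have h3 := slice_bound ht x hSm (B := Iio (x 1 / 2)) measurableSet_Iio
    (w := ENNReal.ofReal (h / x 1)) (by
      intro b hb
      simp only [mem_Iio, not_lt] at hb
      refine (slice_short hh (by linarith)).trans ?_
      apply ENNReal.ofReal_le_ofReal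
      apply div_le_div_of_nonneg_left hh.le (by linarith)
      linarith)
  have h4 := tail_bound ht (x 1) (l := x 1 / 2) (by linarith) (B := Iio (x 1 / 2))
    measurableSet_Iio (by
      intro b hb
      simp only [mem_Iio] at hb
      exact le_trans (by linarith) (le_abs_self _))
  have h5 := h1.trans (mul_le_mul_right (h3.trans (add_le_add_left h4 _)) _)
  have hx0 : 0 < x 1 := by linarith
  rw [← ENNReal.ofReal_mul (by positivity), ← ENNReal.ofReal_add (by positivity)
    (by positivity), ← ENNReal.ofReal_mul (by positivity), ← ofReal_norm] at h5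
  have h6 := (ENNReal.ofReal_le_ofReal_iff (by positivity)).mp h5
  have h7 : (x 1 / 2) ^ 2 / (8 * t) = (x 1) ^ 2 / (32 * t) := by
    field_simp
    ring
  rw [h7] at h6
  exact h6

end

end Pool.Agent.X297.KP
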