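import Mathlib

set_option autoImplicit false

open MeasureTheory Real Set Filter Topology
open scoped ENNReal

namespace Pool.Agent.X297.KP

noncomputable section

/-- Euclidean space `ℝ^N`. -/
abbrev E (N : ℕ) := EuclideanSpace ℝ (Fin N)

/-- The heat kernel `(4πt)^(-N/2) exp(-|x|²/(4t))`. -/
def heatK {N : ℕ} (t : ℝ) (x : E N) : ℝ :=
  (4 * π * t) ^ (-((N : ℝ) / 2)) * Real.exp (-(‖x‖ ^ 2 / (4 * t)))

variable {N : ℕ}

theorem heatK_nonneg {t : ℝ} (ht : 0 < t) (x : E N) : 0 ≤ heatK t x := by
  unfold heatK; positivity

theorem heatK_meas : Measurable (fun p : ℝ × E N => heatK p.1 p.2) := by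
  unfold heatK; fun_prop

theorem heatK_cont {t : ℝ} : Continuous (fun x : E N => heatK t x) := by
  unfold heatK; fun_prop

theorem heatK_neg (t : ℝ) (x : E N) : heatK t (-x) = heatK t x := by
  unfold heatK; simp

theorem heatK_int1 {t : ℝ} (ht : 0 < t) : ∫ x : E N, heatK t x = 1 := by
  unfold heatK
  rw [integral_const_mul]
  have h := GaussianFourier.integral_rexp_neg_mul_sq_norm (V := E N) (b := 1 / (4 * t))
    (by positivity)
  have h2 : ∀ x : E N, -(‖x‖ ^ 2 / (4 * t)) = -(1 / (4 * t)) * ‖x‖ ^ 2 := by
    intro x; ring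
  simp_rw [h2]
  rw [h]
  have h3 : π / (1 / (4 * t)) = 4 * π * t := by field_simp
  rw [h3]
  have h4 : (Module.finrank ℝ (E N) : ℝ) = N := by simp
  rw [h4, ← Real.rpow_add (by positivity)]
  simp

theorem heatK_integrable {t : ℝ} (ht : 0 < t) : Integrable (fun x : E N => heatK t x) := by
  by_contra h
  have := integral_undef h
  rw [heatK_int1 ht] at this
  norm_num at this

theorem heatK_integrable' {t : ℝ} (ht : 0 < t) (x : E N) :
    Integrable (fun y : E N => heatK t (x - y)) :=
  (heatK_integrable ht).comp_sub_left x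

theorem heatK_int1' {t : ℝ} (ht : 0 < t) (x : E N) : ∫ y : E N, heatK t (x - y) = 1 := by
  rw [integral_sub_left_eq_self (fun y => heatK t y) volume x]
  exact heatK_int1 ht

theorem lint_heatK {t : ℝ} (ht : 0 < t) (x : E N) :
    ∫⁻ y : E N, ENNReal.ofReal (heatK t (x - y)) = 1 := by
  rw [← ofReal_integral_eq_lintegral_ofReal (heatK_integrable' ht x)
    (Eventually.of_forall fun y => heatK_nonneg ht _), heatK_int1' ht]
  simp

theorem heatK_mul {a b : ℝ} (ha : 0 < a) (hb : 0 < b) (x y z : E N) :
    heatK a (x - y) * heatK b (y - z) = heatK (a + b) (x - z) *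
      heatK (a * b / (a + b)) ((a + b)⁻¹ • (b • x + a • z) - y) := by
  have hab : 0 < a + b := by positivity
  unfold heatK
  have e1 : (4 * π * a) ^ (-((N : ℝ) / 2)) * (4 * π * b) ^ (-((N : ℝ) / 2)) =
      (4 * π * (a + b)) ^ (-((N : ℝ) / 2)) * (4 * π * (a * b / (a + b))) ^ (-((N : ℝ) / 2)) := by
    rw [← Real.mul_rpow (by positivity) (by positivity),
      ← Real.mul_rpow (by positivity) (by positivity)]
    congr 1
    field_simp
  obtain ⟨p, hp⟩ : ∃ p, p = x - y := ⟨_, rfl⟩
  obtain ⟨q, hq⟩ : ∃ q, q = y - z := ⟨_, rfl⟩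
  have hxz : x - z = p + q := by rw [hp, hq]; abel
  have hm : (a + b)⁻¹ • (b • x + a • z) - y = (a + b)⁻¹ • (b • p - a • q) := by
    rw [hp, hq]
    have : y = (a + b)⁻¹ • ((a + b) • y) := by
      rw [smul_smul, inv_mul_cancel₀ hab.ne', one_smul]
    conv_lhs => rw [this]
    rw [← smul_sub]
    congr 1
    module
  rw [hxz, hm, ← hp, ← hq]
  have e2 : -(‖p‖ ^ 2 / (4 * a)) + -(‖q‖ ^ 2 / (4 * b)) = -(‖p + q‖ ^ 2 / (4 * (a + b))) +
      -(‖(a + b)⁻¹ • (b • p - a • q)‖ ^ 2 / (4 * (a * b / (a + b)))) := by
    rw [norm_smul, mul_pow, norm_add_sq_real, norm_sub_sq_real, norm_smul, norm_smul,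
      inner_smul_left, inner_smul_right, Real.norm_eq_abs, Real.norm_eq_abs, Real.norm_eq_abs,
      mul_pow, mul_pow, sq_abs, sq_abs, sq_abs]
    simp only [conj_trivial]
    field_simp
    ring
  calc _ = ((4 * π * a) ^ (-((N : ℝ) / 2)) * (4 * π * b) ^ (-((N : ℝ) / 2))) *
        Real.exp (-(‖p‖ ^ 2 / (4 * a)) + -(‖q‖ ^ 2 / (4 * b))) := by
        rw [Real.exp_add]; ring
    _ = _ := by rw [e1, e2, Real.exp_add]; ring

theorem semigroup {a b : ℝ} (ha : 0 < a) (hb : 0 < b) (x z : E N) :
    ∫⁻ y : E N, ENNReal.ofReal (heatK a (x - y)) * ENNReal.ofReal (heatK b (y - z)) =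
      ENNReal.ofReal (heatK (a + b) (x - z)) := by
  have h : ∀ y : E N, ENNReal.ofReal (heatK a (x - y)) * ENNReal.ofReal (heatK b (y - z)) =
      ENNReal.ofReal (heatK (a + b) (x - z)) *
        ENNReal.ofReal (heatK (a * b / (a + b)) ((a + b)⁻¹ • (b • x + a • z) - y)) := by
    intro y
    rw [← ENNReal.ofReal_mul (heatK_nonneg ha _), heatK_mul ha hb,
      ENNReal.ofReal_mul (heatK_nonneg (by positivity) _)]
  simp_rw [h]
  rw [lintegral_const_mul _ (by have := heatK_cont (N := N) (t := a * b / (a + b)); fun_prop),
    lint_heatK (by positivity), mul_one]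

/-- `∫⁻` of a nonnegative continuous function with antiderivative `G`. -/
theorem lint_ftc {g G : ℝ → ℝ} (hg : Continuous g) (h0 : ∀ s, 0 ≤ s → 0 ≤ g s)
    (hG : ∀ s, HasDerivAt G (g s) s) {t : ℝ} (ht : 0 < t) :
    ∫⁻ s in Ioo 0 t, ENNReal.ofReal (g s) = ENNReal.ofReal (G t - G 0) := by
  have h1 : ∫ s in (0:ℝ)..t, g s = G t - G 0 :=
    intervalIntegral.integral_eq_sub_of_hasDerivAt (fun s _ => hG s) (hg.intervalIntegrable _ _)
  rw [← h1, intervalIntegral.integral_of_le ht.le, integral_Ioc_eq_integral_Ioo,
    ofReal_integral_eq_lintegral_ofReal]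
  · exact (hg.integrableOn_Icc (a := 0) (b := t)).mono_set Ioo_subset_Icc_self
  · filter_upwards [ae_restrict_mem measurableSet_Ioo] with s hs
    exact h0 s hs.1.le

theorem meas_conv {D : ℝ → E N → ℝ≥0∞} (hD : Measurable (Function.uncurry D)) (t : ℝ) :
    Measurable (fun p : ℝ × E N =>
      ∫⁻ y, ENNReal.ofReal (heatK (t - p.1) (p.2 - y)) * D p.1 y) := by
  apply Measurable.lintegral_prod_right' (f := fun q : (ℝ × E N) × E N =>
    ENNReal.ofReal (heatK (t - q.1.1) (q.1.2 - q.2)) * D q.1.1 q.2)
  apply Measurable.mul
  · apply ENNReal.measurable_ofReal.comp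
    exact heatK_meas.comp (f := fun q : (ℝ × E N) × E N => (t - q.1.1, q.1.2 - q.2)) (by fun_prop)
  · exact hD.comp (f := fun q : (ℝ × E N) × E N => (q.1.1, q.2)) (by fun_prop)

theorem meas_conv0 {D : E N → ℝ≥0∞} (hD : Measurable D) :
    Measurable (fun p : ℝ × E N =>
      ∫⁻ y, ENNReal.ofReal (heatK p.1 (p.2 - y)) * D y) := by
  apply Measurable.lintegral_prod_right' (f := fun q : (ℝ × E N) × E N =>
    ENNReal.ofReal (heatK q.1.1 (q.1.2 - q.2)) * D q.2)
  apply Measurable.mul
  · apply ENNReal.measurable_ofReal.comp
    exact heatK_meas.comp (f := fun q : (ℝ × E N) × E N => (q.1.1, q.1.2 - q.2)) (by fun_prop)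
  · exact hD.comp (f := fun q : (ℝ × E N) × E N => q.2) (by fun_prop)

theorem conv_conv {D : E N → ℝ≥0∞} (hD : Measurable D) {a b : ℝ} (ha : 0 < a) (hb : 0 < b)
    (x : E N) :
    ∫⁻ y, ENNReal.ofReal (heatK a (x - y)) *
        (∫⁻ z, ENNReal.ofReal (heatK b (y - z)) * D z) =
      ∫⁻ z, ENNReal.ofReal (heatK (a + b) (x - z)) * D z := by
  have h1 : ∀ y : E N, ENNReal.ofReal (heatK a (x - y)) *
        (∫⁻ z, ENNReal.ofReal (heatK b (y - z)) * D z) =
      ∫⁻ z, ENNReal.ofReal (heatK a (x - y)) * (ENNReal.ofReal (heatK b (y - z)) * D z) := by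
    intro y
    rw [lintegral_const_mul]
    have := heatK_cont (N := N) (t := b)
    fun_prop
  simp_rw [h1]
  rw [lintegral_lintegral_swap]
  · congr 1
    funext z
    have h2 : ∀ y : E N, ENNReal.ofReal (heatK a (x - y)) * (ENNReal.ofReal (heatK b (y - z)) * D z)
        = (ENNReal.ofReal (heatK a (x - y)) * ENNReal.ofReal (heatK b (y - z))) * D z := by
      intro y; ring
    simp_rw [h2]
    rw [lintegral_mul_const, semigroup ha hb]
    have h3 := heatK_cont (N := N) (t := b)
    have h4 := heatK_cont (N := N) (t := a)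
    fun_prop
  · apply Measurable.aemeasurable
    have h3 := heatK_cont (N := N) (t := b)
    have h4 := heatK_cont (N := N) (t := a)
    unfold Function.uncurry
    fun_prop

/-- Gronwall's inequality for sub-solutions of the linear Duhamel inequality. -/
theorem gronwall {d : ℝ → E N → ℝ≥0∞}
    (hd1 : ∀ t, 0 < t → ∀ x, d t x ≤ 1) {D : E N → ℝ≥0∞} (hD : Measurable D) {M : ℝ}
    (hM : 0 ≤ M)
    (h : ∀ t, 0 < t → ∀ x, d t x ≤ (∫⁻ y, ENNReal.ofReal (heatK t (x - y)) * D y) +
      ∫⁻ s in Ioo 0 t, ∫⁻ y, ENNReal.ofReal (heatK (t - s) (x - y)) *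
        (ENNReal.ofReal M * d s y)) :
    ∀ t, 0 < t → ∀ x, d t x ≤ ENNReal.ofReal (Real.exp (M * t)) *
      ∫⁻ y, ENNReal.ofReal (heatK t (x - y)) * D y := by
  set Q : ℝ → E N → ℝ≥0∞ := fun t x => ∫⁻ y, ENNReal.ofReal (heatK t (x - y)) * D y with hQ
  have hQm : Measurable (Function.uncurry Q) := meas_conv0 hD
  have key : ∀ n : ℕ, ∀ t, 0 < t → ∀ x, d t x ≤ ENNReal.ofReal (Real.exp (M * t)) * Q t x +
      ENNReal.ofReal ((M * t) ^ n / n.factorial) := by
    intro n
    induction n with
    | zero =>
      intro t ht x
      refine (hd1 t ht x).trans ?_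
      simp
    | succ n ih =>
      intro t ht x
      have hstep : ∫⁻ s in Ioo 0 t, ∫⁻ y, ENNReal.ofReal (heatK (t - s) (x - y)) *
          (ENNReal.ofReal M * d s y) ≤
          ENNReal.ofReal (Real.exp (M * t) - 1) * Q t x +
            ENNReal.ofReal ((M * t) ^ (n + 1) / (n + 1).factorial) := by
        calc ∫⁻ s in Ioo 0 t, ∫⁻ y, ENNReal.ofReal (heatK (t - s) (x - y)) *
              (ENNReal.ofReal M * d s y)
            ≤ ∫⁻ s in Ioo 0 t, (ENNReal.ofReal (M * Real.exp (M * s)) * Q t x +
                ENNReal.ofReal (M * ((M * s) ^ n / n.factorial))) := by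
              apply setLIntegral_mono' measurableSet_Ioo
              intro s hs
              have hts : 0 < t - s := by linarith [hs.2]
              calc ∫⁻ y, ENNReal.ofReal (heatK (t - s) (x - y)) * (ENNReal.ofReal M * d s y)
                  ≤ ∫⁻ y, (ENNReal.ofReal (M * Real.exp (M * s)) *
                        (ENNReal.ofReal (heatK (t - s) (x - y)) * Q s y) +
                      ENNReal.ofReal (M * ((M * s) ^ n / n.factorial)) *
                        ENNReal.ofReal (heatK (t - s) (x - y))) := by
                    apply lintegral_mono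
                    intro y
                    calc ENNReal.ofReal (heatK (t - s) (x - y)) * (ENNReal.ofReal M * d s y)
                        ≤ ENNReal.ofReal (heatK (t - s) (x - y)) * (ENNReal.ofReal M *
                          (ENNReal.ofReal (Real.exp (M * s)) * Q s y +
                            ENNReal.ofReal ((M * s) ^ n / n.factorial))) := by
                          gcongr
                          exact ih s hs.1 y
                      _ = _ := by
                          rw [ENNReal.ofReal_mul hM, ENNReal.ofReal_mul hM]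
                          ring
                _ = _ := by
                    have h5 : Measurable (fun y : E N => ENNReal.ofReal (heatK (t - s) (x - y))) := by
                      have := heatK_cont (N := N) (t := t - s)
                      fun_prop
                    have h6 : Measurable (fun y : E N => Q s y) :=
                      hQm.comp (f := fun y : E N => (s, y)) (by fun_prop)
                    have h56 : Measurable (fun y : E N =>
                      ENNReal.ofReal (heatK (t - s) (x - y)) * Q s y) := h5.mul h6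
                    have h57 : Measurable (fun y : E N => ENNReal.ofReal (M * Real.exp (M * s)) *
                      (ENNReal.ofReal (heatK (t - s) (x - y)) * Q s y)) := h56.const_mul _
                    rw [lintegral_add_left h57,
                      lintegral_const_mul _ h56, lintegral_const_mul _ h5,
                      lint_heatK hts, mul_one, hQ, conv_conv hD hts hs.1]
                    congr 4
                    · ring_nf
          _ = _ := by
              have hc1 : Continuous (fun s : ℝ => M * Real.exp (M * s)) := by fun_prop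
              have hc2 : Continuous (fun s : ℝ => M * ((M * s) ^ n / n.factorial)) := by fun_prop
              rw [lintegral_add_left (by fun_prop), lintegral_mul_const _ (by fun_prop),
                lint_ftc (G := fun s => Real.exp (M * s)) hc1
                  (fun s _ => by positivity) (fun s => by
                    have := ((hasDerivAt_id s).const_mul M).exp
                    simp only [id, mul_one] at this
                    convert this using 1
                    ring) ht,
                lint_ftc (G := fun s => (M * s) ^ (n + 1) / (n + 1).factorial) hc2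
                  (fun s hs => by positivity) (fun s => by
                    have := (((hasDerivAt_id' s).const_mul M).fun_pow (n + 1)).div_const
                      ((n + 1).factorial : ℝ)
                    refine this.congr_deriv ?_
                    rw [Nat.factorial_succ]
                    push_cast
                    field_simp) ht]
              simp
      calc d t x ≤ _ := h t ht x
        _ ≤ Q t x + (ENNReal.ofReal (Real.exp (M * t) - 1) * Q t x +
            ENNReal.ofReal ((M * t) ^ (n + 1) / (n + 1).factorial)) := by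
            gcongr
        _ = (ENNReal.ofReal 1 + ENNReal.ofReal (Real.exp (M * t) - 1)) * Q t x +
            ENNReal.ofReal ((M * t) ^ (n + 1) / (n + 1).factorial) := by
            rw [ENNReal.ofReal_one]; ring
        _ = _ := by
            rw [← ENNReal.ofReal_add zero_le_one (by
              have : 1 ≤ Real.exp (M * t) := Real.one_le_exp (by positivity)
              linarith)]
            congr 3
            ring
  intro t ht x
  have hlim : Tendsto (fun n : ℕ => ENNReal.ofReal (Real.exp (M * t)) * Q t x +
      ENNReal.ofReal ((M * t) ^ n / n.factorial)) atTop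
      (𝓝 (ENNReal.ofReal (Real.exp (M * t)) * Q t x + ENNReal.ofReal 0)) := by
    apply Tendsto.const_add
    exact ENNReal.tendsto_ofReal (FloorSemiring.tendsto_pow_div_factorial_atTop (M * t))
  simp only [ENNReal.ofReal_zero, add_zero] at hlim
  exact ge_of_tendsto' hlim (fun n => key n t ht x)

end

end Pool.Agent.X297.KP
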