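import Pool.Agent.X297.KP.Est

set_option autoImplicit false

open MeasureTheory Real Set Filter Topology
open scoped ENNReal

namespace Pool.Agent.X297.KP

noncomputable section

variable {N : ℕ}

/-- The set `Ω(u)` of the limits in `L^∞_loc` of `u(t_n, x_n + ·)`, where `t_n → ∞`. -/
def OmegaLimit (u : ℝ → E N → ℝ) : Set (E N → ℝ) :=
  {ψ | MemLp ψ ⊤ volume ∧ ∃ (t : ℕ → ℝ) (x : ℕ → E N), Tendsto t atTop atTop ∧
    ∀ R : ℝ, Tendsto (fun n => eLpNorm (fun y => u (t n) (x n + y) - ψ y) ⊤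
      (volume.restrict (Metric.ball 0 R))) atTop (𝓝 0)}

/-- `ψ` is one-dimensional: `ψ(x) = Ψ(x·e)` for some unit vector `e`. -/
def OneDim (ψ : E N → ℝ) : Prop :=
  ∃ e : E N, ‖e‖ = 1 ∧ ∃ Ψ : ℝ → ℝ, ψ =ᵐ[volume] fun x => Ψ (inner ℝ x e)

theorem ae_tendsto {v : ℕ → E N → ℝ} {ψ : E N → ℝ}
    (h : ∀ R : ℝ, Tendsto (fun n => eLpNorm (fun y => v n y - ψ y) ⊤
      (volume.restrict (Metric.ball 0 R))) atTop (𝓝 0)) :
    ∀ᵐ y, Tendsto (fun n => v n y) atTop (𝓝 (ψ y)) := by
  have h2 : ∀ᵐ y : E N, ∀ m : ℕ, y ∈ Metric.ball (0 : E N) (m : ℝ) → ∀ n,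
      ‖v n y - ψ y‖ₑ ≤ eLpNorm (fun y => v n y - ψ y) ⊤
        (volume.restrict (Metric.ball 0 (m : ℝ))) := by
    rw [ae_all_iff]
    intro m
    refine (ae_restrict_iff' Metric.isOpen_ball.measurableSet).mp ?_
    rw [ae_all_iff]
    intro n
    rw [eLpNorm_exponent_top]
    exact ae_le_eLpNormEssSup
  filter_upwards [h2] with y hy
  obtain ⟨m, hm⟩ := exists_nat_gt ‖y‖
  have h3 := hy m (by simpa using hm)
  have h4 : Tendsto (fun n => ‖v n y - ψ y‖ₑ) atTop (𝓝 0) :=
    tendsto_of_tendsto_of_tendsto_of_le_of_le tendsto_const_nhds (h m) (fun _ => zero_le) h3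
  rw [tendsto_iff_norm_sub_tendsto_zero]
  have h5 := (ENNReal.tendsto_toReal (by simp : (0 : ℝ≥0∞) ≠ ⊤)).comp h4
  simpa [Function.comp_def] using h5

/-- The width function. -/
def wd (y : ℝ) : ℝ := √(√(Real.log (max y (Real.exp 1))))

theorem log_ge (y : ℝ) : 1 ≤ Real.log (max y (Real.exp 1)) := by
  rw [Real.le_log_iff_exp_le (lt_max_of_lt_right (Real.exp_pos 1))]
  exact le_max_right _ _

theorem wd_pow (y : ℝ) : wd y ^ 4 = Real.log (max y (Real.exp 1)) := by
  unfold wd
  have h := log_ge y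
  rw [show (4 : ℕ) = 2 * 2 from rfl, pow_mul, Real.sq_sqrt (Real.sqrt_nonneg _),
    Real.sq_sqrt (by linarith)]

theorem wd_ge (y : ℝ) : 1 ≤ wd y := by
  unfold wd
  rw [Real.one_le_sqrt, Real.one_le_sqrt]
  exact log_ge y

/-- The filled case. -/
theorem fill {f : ℝ → ℝ} (hf : IsKPP f) {u : ℝ → E 2 → ℝ} (hu : IsSolution f U0 u)
    {t : ℕ → ℝ} {x : ℕ → E 2} (ht : Tendsto t atTop atTop)
    (hr : Tendsto (fun n => t n / wd (x n 1) ^ 2) atTop atTop) (z : E 2) :
    Tendsto (fun n => u (t n) (x n + z)) atTop (𝓝 1) := by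
  set c : ℝ := |z 1| with hc
  have hc0 : 0 ≤ c := abs_nonneg _
  set v : ℕ → ℝ := fun n => √(√(Real.log (1 + c + t n))) with hv
  have key : ∀ᶠ n in atTop, 1 - u (t n) (x n + z) ≤ √2 * Real.exp (-(t n / 8)) +
      (√((t n / wd (x n 1) ^ 2)⁻¹) + √(√((c + t n) / t n ^ 2))) := by
    filter_upwards [ht.eventually_ge_atTop 1] with n hn
    have ht0 : 0 < t n := by linarith
    have hw := wd_ge (x n 1)
    have hv0 : 0 ≤ v n := Real.sqrt_nonneg _
    have hlog : 0 ≤ Real.log (1 + c + t n) := Real.log_nonneg (by linarith)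
    have hv4 : v n ^ 4 = Real.log (1 + c + t n) := by
      simp only [hv]
      rw [show (4 : ℕ) = 2 * 2 from rfl, pow_mul, Real.sq_sqrt (Real.sqrt_nonneg _),
        Real.sq_sqrt hlog]
    have hW : (x n + z) 1 + t n ≤ Real.exp ((wd (x n 1) + v n) ^ 4) := by
      have h1 : wd (x n 1) ^ 4 + v n ^ 4 ≤ (wd (x n 1) + v n) ^ 4 := by
        have e : (wd (x n 1) + v n) ^ 4 = wd (x n 1) ^ 4 + v n ^ 4 + (4 * wd (x n 1) ^ 3 * v n +
          6 * wd (x n 1) ^ 2 * v n ^ 2 + 4 * wd (x n 1) * v n ^ 3) := by ring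
        rw [e]
        have hw0 : 0 ≤ wd (x n 1) := by linarith
        have : 0 ≤ 4 * wd (x n 1) ^ 3 * v n +
          6 * wd (x n 1) ^ 2 * v n ^ 2 + 4 * wd (x n 1) * v n ^ 3 := by positivity
        linarith
      refine le_trans ?_ (Real.exp_le_exp.mpr h1)
      rw [wd_pow, hv4, Real.exp_add, Real.exp_log (lt_max_of_lt_right (Real.exp_pos 1)),
        Real.exp_log (by linarith)]
      have hm1 : 1 ≤ max (x n 1) (Real.exp 1) :=
        le_trans (Real.one_le_exp zero_le_one) (le_max_right _ _)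
      have hm2 : x n 1 ≤ max (x n 1) (Real.exp 1) := le_max_left _ _
      have hz : z 1 ≤ c := le_abs_self _
      simp only [PiLp.add_apply]
      nlinarith [mul_nonneg (by linarith : 0 ≤ max (x n 1) (Real.exp 1) - 1)
        (by linarith : 0 ≤ c + t n)]
    have h1 := near_one hf hu ht0 (x n + z) (W := wd (x n 1) + v n) (by linarith) hW
    refine h1.trans ?_
    gcongr
    have h2 : (√(4 * π * t n))⁻¹ * (2 * (wd (x n 1) + v n)) ≤
        wd (x n 1) / √(t n) + v n / √(t n) := by
      have hst : 0 < √(t n) := Real.sqrt_pos.mpr ht0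
      have h3 : 2 * √(t n) ≤ √(4 * π * t n) := by
        apply Real.le_sqrt_of_sq_le
        rw [mul_pow, Real.sq_sqrt ht0.le]
        have := Real.pi_gt_three
        nlinarith
      have h4 : (√(4 * π * t n))⁻¹ ≤ (2 * √(t n))⁻¹ := inv_anti₀ (by positivity) h3
      calc (√(4 * π * t n))⁻¹ * (2 * (wd (x n 1) + v n))
          ≤ (2 * √(t n))⁻¹ * (2 * (wd (x n 1) + v n)) := by
            apply mul_le_mul_of_nonneg_right h4
            linarith
        _ = _ := by field_simp
    refine h2.trans (add_le_add ?_ ?_)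
    · rw [inv_div, Real.sqrt_div (by positivity), Real.sqrt_sq (by linarith)]
    · have h5 : v n / √(t n) = √(√(Real.log (1 + c + t n) / t n ^ 2)) := by
        simp only [hv]
        rw [Real.sqrt_div hlog, Real.sqrt_sq ht0.le, Real.sqrt_div (Real.sqrt_nonneg _)]
      rw [h5]
      apply Real.sqrt_le_sqrt
      apply Real.sqrt_le_sqrt
      gcongr
      have := Real.log_le_sub_one_of_pos (by linarith : 0 < 1 + c + t n)
      linarith
  have hlim : Tendsto (fun n => √2 * Real.exp (-(t n / 8)) +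
      (√((t n / wd (x n 1) ^ 2)⁻¹) + √(√((c + t n) / t n ^ 2)))) atTop
      (𝓝 (√2 * 0 + (√0 + √(√0)))) := by
    refine Tendsto.add (Tendsto.const_mul _ ?_) (Tendsto.add ?_ ?_)
    · apply Real.tendsto_exp_neg_atTop_nhds_zero.comp
      exact ht.atTop_div_const (by norm_num)
    · exact (Real.continuous_sqrt.tendsto 0).comp hr.inv_tendsto_atTop
    · have h6 : Tendsto (fun n => (c + t n) / t n ^ 2) atTop (𝓝 0) := by
        have h7 : Tendsto (fun n => (t n)⁻¹) atTop (𝓝 0) := ht.inv_tendsto_atTop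
        have h8 : Tendsto (fun n => c * ((t n)⁻¹ * (t n)⁻¹) + (t n)⁻¹) atTop
            (𝓝 (c * (0 * 0) + 0)) := ((h7.mul h7).const_mul c).add h7
        simp only [mul_zero, add_zero] at h8
        refine h8.congr' ?_
        filter_upwards [ht.eventually_ge_atTop 1] with n hn
        have ht0 : t n ≠ 0 := by linarith
        field_simp
      have h9 := (Real.continuous_sqrt.tendsto 0).comp h6
      rw [Real.sqrt_zero] at h9
      have h10 := (Real.continuous_sqrt.tendsto 0).comp h9
      simpa [Function.comp_def] using h10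
  simp only [mul_zero, Real.sqrt_zero, add_zero] at hlim
  have h0 : ∀ᶠ n in atTop, 0 ≤ 1 - u (t n) (x n + z) := by
    filter_upwards [ht.eventually_ge_atTop 1] with n hn
    have := (hu.mem (t n) (by linarith) (x n + z)).2
    linarith
  have h11 := tendsto_of_tendsto_of_tendsto_of_le_of_le' tendsto_const_nhds hlim h0 key
  have h12 := h11.const_sub 1
  simpa using h12

/-- The vertical case. -/
theorem vert_lim {f : ℝ → ℝ} (hf : IsKPP f) {u : ℝ → E 2 → ℝ} (hu : IsSolution f U0 u)
    {t : ℕ → ℝ} {x : ℕ → E 2} (ht : Tendsto t atTop atTop) {K : ℝ}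
    (hK : ∀ n, t n ≤ K * wd (x n 1) ^ 2) (z : E 2) {h : ℝ} (hh : 0 < h) :
    Tendsto (fun n => u (t n) (x n + z + pt 0 h) - u (t n) (x n + z)) atTop (𝓝 0) := by
  obtain ⟨M, hM0, hM⟩ := hf.lip
  wlog hK1 : 1 ≤ K generalizing K
  · refine this (K := max K 1) (fun n => (hK n).trans ?_) (le_max_right _ _)
    have := sq_nonneg (wd (x n 1))
    gcongr
    exact le_max_left _ _
  set a : ℕ → ℝ := fun n => wd (x n 1) with ha
  have ha1 : ∀ n, 1 ≤ a n := fun n => wd_ge _
  have hat : Tendsto a atTop atTop := by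
    rw [tendsto_atTop]
    intro b
    filter_upwards [ht.eventually_ge_atTop (K * (max b 0) ^ 2)] with n hn
    have h1 := hn.trans (hK n)
    have h2 : (max b 0) ^ 2 ≤ a n ^ 2 := le_of_mul_le_mul_left h1 (by linarith)
    have h3 : max b 0 ≤ a n := le_of_sq_le_sq h2 (by linarith [ha1 n])
    exact (le_max_left _ _).trans h3
  have h4t : Tendsto (fun n => Real.exp (a n ^ 4)) atTop atTop := by
    apply Real.tendsto_exp_atTop.comp
    exact (tendsto_pow_atTop (by norm_num)).comp hat
  set C : ℝ := √2 * (128 * K) + 2 * h with hC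
  have key : ∀ᶠ n in atTop, ‖u (t n) (x n + z + pt 0 h) - u (t n) (x n + z)‖ ≤
      Real.exp (a n ^ 2 * (M * K - a n ^ 2)) * C := by
    filter_upwards [ht.eventually_ge_atTop 1, hat.eventually_gt_atTop 1,
      h4t.eventually_ge_atTop (2 * |z 1|), h4t.eventually_ge_atTop 12] with n hn han hz h12
    have ht0 : 0 < t n := by linarith
    have hx1 : x n 1 = Real.exp (a n ^ 4) := by
      have h1 : a n ^ 4 = Real.log (max (x n 1) (Real.exp 1)) := wd_pow _
      rcases le_total (x n 1) (Real.exp 1) with h' | h'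
      · rw [max_eq_right h', Real.log_exp] at h1
        have : 1 < a n ^ 4 := one_lt_pow₀ han (by norm_num)
        linarith
      · rw [max_eq_left h'] at h1
        rw [h1, Real.exp_log (lt_of_lt_of_le (Real.exp_pos 1) h')]
    have hp : Real.exp (a n ^ 4) / 2 ≤ (x n + z) 1 := by
      simp only [PiLp.add_apply]
      rw [hx1]
      have := neg_abs_le (z 1)
      linarith
    have hp6 : 6 ≤ (x n + z) 1 := by linarith
    have h1 := vert hf hM0 hM hu hh ht0 (x n + z) hp6
    rw [Real.norm_eq_abs]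
    refine h1.trans ?_
    set p : ℝ := (x n + z) 1 with hpdef
    have hp0 : 0 < p := by linarith
    have hE : 0 < Real.exp (a n ^ 4) := Real.exp_pos _
    have hKn : t n ≤ K * a n ^ 2 := hK n
    have hKa : 0 < K * a n ^ 2 := by linarith
    -- exponential growth factor
    have f1 : Real.exp (M * t n) ≤ Real.exp (M * (K * a n ^ 2)) :=
      Real.exp_le_exp.mpr (mul_le_mul_of_nonneg_left hKn hM0)
    -- Gaussian tail
    have f2 : Real.exp (-(p ^ 2 / (32 * t n))) ≤ 128 * K * (Real.exp (a n ^ 4))⁻¹ := by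
      have g1 : Real.exp (-(p ^ 2 / (32 * t n))) ≤ (p ^ 2 / (32 * t n))⁻¹ := by
        rw [Real.exp_neg]
        apply inv_anti₀ (by positivity)
        have := Real.add_one_le_exp (p ^ 2 / (32 * t n))
        linarith
      refine g1.trans ?_
      rw [inv_div, div_le_iff₀ (by positivity)]
      have g2 : (Real.exp (a n ^ 4) / 2) ^ 2 ≤ p ^ 2 := pow_le_pow_left₀ (by positivity) hp 2
      have g3 : a n ^ 2 ≤ Real.exp (a n ^ 4) := by
        have := Real.add_one_le_exp (a n ^ 4)
        nlinarith [sq_nonneg (a n ^ 2 - 1)]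
      calc 32 * t n ≤ 32 * (K * a n ^ 2) := by linarith
        _ ≤ 32 * (K * Real.exp (a n ^ 4)) := by gcongr
        _ = 128 * K * (Real.exp (a n ^ 4))⁻¹ * (Real.exp (a n ^ 4) / 2) ^ 2 := by
            field_simp
            ring
        _ ≤ _ := by gcongr
    have f3 : (√(4 * π * t n))⁻¹ * (h / p) ≤ 2 * h * (Real.exp (a n ^ 4))⁻¹ := by
      have g4 : (√(4 * π * t n))⁻¹ ≤ 1 := by
        apply inv_le_one_of_one_le₀
        rw [Real.one_le_sqrt]
        have := Real.pi_gt_three
        nlinarith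
      calc (√(4 * π * t n))⁻¹ * (h / p) ≤ 1 * (h / p) := by gcongr
        _ ≤ 1 * (h / (Real.exp (a n ^ 4) / 2)) := by gcongr
        _ = _ := by field_simp
    calc Real.exp (M * t n) * (√2 * Real.exp (-(p ^ 2 / (32 * t n))) +
          (√(4 * π * t n))⁻¹ * (h / p))
        ≤ Real.exp (M * (K * a n ^ 2)) * (√2 * (128 * K * (Real.exp (a n ^ 4))⁻¹) +
          2 * h * (Real.exp (a n ^ 4))⁻¹) := by gcongr
      _ = _ := by
          rw [hC, ← Real.exp_neg]
          have g5 : Real.exp (a n ^ 2 * (M * K - a n ^ 2)) =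
              Real.exp (M * (K * a n ^ 2)) * Real.exp (-(a n ^ 4)) := by
            rw [← Real.exp_add]
            congr 1
            ring
          rw [g5]
          ring
  have hlim : Tendsto (fun n => Real.exp (a n ^ 2 * (M * K - a n ^ 2)) * C) atTop
      (𝓝 (0 * C)) := by
    apply Tendsto.mul_const
    apply Real.tendsto_exp_atBot.comp
    have h2 : Tendsto (fun n => a n ^ 2) atTop atTop :=
      (tendsto_pow_atTop (by norm_num)).comp hat
    apply h2.atTop_mul_atBot₀
    exact (tendsto_const_nhds (x := M * K)).add_atBot (tendsto_neg_atTop_atBot.comp h2) |>.congr (fun n => by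
      simp only [Function.comp]
      ring)
  rw [zero_mul] at hlim
  exact squeeze_zero_norm' key hlim

/-- Every limit function is one-dimensional. -/
theorem oneDim {f : ℝ → ℝ} (hf : IsKPP f) {u : ℝ → E 2 → ℝ} (hu : IsSolution f U0 u)
    {ψ : E 2 → ℝ} (hψ : ψ ∈ OmegaLimit u) : OneDim ψ := by
  obtain ⟨_, t, x, ht, hlim⟩ := hψ
  have hae := ae_tendsto (v := fun n y => u (t n) (x n + y)) hlim
  have hn1 : ‖pt 1 0‖ = 1 := by
    have h := norm_sq2 (pt 1 0)
    simp only [pt0, pt1] at h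
    have h' : ‖pt 1 0‖ ^ 2 = 1 ^ 2 := by rw [h]; ring
    exact (pow_left_inj₀ (norm_nonneg _) (by norm_num) two_ne_zero).mp h'
  refine ⟨pt 1 0, hn1, ?_⟩
  have hin : ∀ y : E 2, (inner ℝ y (pt 1 0) : ℝ) = y 0 := by
    intro y
    rw [PiLp.inner_apply, Fin.sum_univ_two]
    simp
  by_cases hK : ∃ K, ∀ n, t n ≤ K * wd (x n 1) ^ 2
  · obtain ⟨K, hK⟩ := hK
    refine ⟨fun s => limsup (fun n => u (t n) (x n + pt s 0)) atTop, ?_⟩
    filter_upwards [hae] with y hy
    simp only [hin]
    have hT : Tendsto (fun n => u (t n) (x n + pt (y 0) 0)) atTop (𝓝 (ψ y)) := by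
      rcases lt_trichotomy (y 1) 0 with h | h | h
      · have h1 := vert_lim hf hu ht hK y (h := -(y 1)) (by linarith)
        have h2 : ∀ n, x n + y + pt 0 (-(y 1)) = x n + pt (y 0) 0 := by
          intro n
          ext i
          fin_cases i <;> simp [add_assoc]
        simp_rw [h2] at h1
        have h3 := h1.add hy
        simpa using h3
      · have h2 : pt (y 0) 0 = y := by
          rw [← h]; exact pt_eta y
        rw [h2]
        exact hy
      · have h1 := vert_lim hf hu ht hK (pt (y 0) 0) h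
        have h2 : ∀ n, x n + pt (y 0) 0 + pt 0 (y 1) = x n + y := by
          intro n
          ext i
          fin_cases i <;> simp
        simp_rw [h2] at h1
        have h3 := hy.sub h1
        simpa using h3
    exact hT.limsup_eq.symm
  · refine ⟨fun _ => 1, ?_⟩
    have hfr : ∀ k : ℕ, ∃ᶠ n in atTop, (k : ℝ) * wd (x n 1) ^ 2 < t n := by
      intro k hk
      apply hK
      simp only [not_lt] at hk
      obtain ⟨n0, hn0⟩ := eventually_atTop.mp hk
      refine ⟨max k (∑ i ∈ Finset.range n0, |t i|), fun n => ?_⟩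
      have hw2 : 1 ≤ wd (x n 1) ^ 2 := one_le_pow₀ (wd_ge _)
      rcases le_or_gt n0 n with h | h
      · refine (hn0 n h).trans ?_
        gcongr
        exact le_max_left _ _
      · have h1 : |t n| ≤ ∑ i ∈ Finset.range n0, |t i| :=
          Finset.single_le_sum (f := fun i => |t i|) (fun i _ => abs_nonneg _)
            (Finset.mem_range.mpr h)
        have h2 : (∑ i ∈ Finset.range n0, |t i|) ≤ max (k:ℝ) (∑ i ∈ Finset.range n0, |t i|) :=
          le_max_right _ _
        have h3 := le_abs_self (t n)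
        have h4 : 0 ≤ ∑ i ∈ Finset.range n0, |t i| := Finset.sum_nonneg (fun i _ => abs_nonneg _)
        nlinarith
    obtain ⟨φ, hφ, hφ2⟩ := extraction_forall_of_frequently hfr
    have hr : Tendsto (fun k => t (φ k) / wd (x (φ k) 1) ^ 2) atTop atTop := by
      apply tendsto_atTop_mono _ tendsto_natCast_atTop_atTop
      intro k
      have hw2 : 0 < wd (x (φ k) 1) ^ 2 := by
        have := wd_ge (x (φ k) 1)
        positivity
      rw [le_div_iff₀ hw2]
      exact (hφ2 k).le
    filter_upwards [hae] with y hy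
    have h1 := fill hf hu (ht.comp hφ.tendsto_atTop) (x := fun k => x (φ k)) hr y
    have h2 := hy.comp hφ.tendsto_atTop
    exact tendsto_nhds_unique h2 h1

end

end Pool.Agent.X297.KP
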