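import Pool.Agent.X297.KP.Kernel

set_option autoImplicit false

open MeasureTheory Real Set Filter Topology
open scoped ENNReal

namespace Pool.Agent.X297.KP

noncomputable section

variable {N : ℕ}

/-- `f` is a Fisher-KPP nonlinearity: `f ∈ C¹([0,1])`, `f(0) = f(1) = 0`, `f'(0) > 0` and
`0 < f(s) ≤ f'(0) s` for `s ∈ (0,1)`. -/
structure IsKPP (f : ℝ → ℝ) : Prop where
  contDiff : ContDiffOn ℝ 1 f (Icc 0 1)
  zero : f 0 = 0
  one : f 1 = 0
  deriv_pos : 0 < derivWithin f (Icc 0 1) 0
  bound : ∀ s ∈ Ioo (0:ℝ) 1, 0 < f s ∧ f s ≤ derivWithin f (Icc 0 1) 0 * s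

/-- `u` is a solution of `∂_t u = Δu + f(u)`, `t > 0`, with `u(0, ·) = 1_U` and `0 ≤ u ≤ 1`, in
the sense of Duhamel's formula. -/
structure IsSolution (f : ℝ → ℝ) (U : Set (E N)) (u : ℝ → E N → ℝ) : Prop where
  meas : Measurable (Function.uncurry u)
  mem : ∀ t, 0 < t → ∀ x, u t x ∈ Icc (0:ℝ) 1
  duhamel : ∀ t, 0 < t → ∀ x, u t x = (∫ y, heatK t (x - y) * U.indicator 1 y) +
    ∫ s in (0:ℝ)..t, ∫ y, heatK (t - s) (x - y) * f (u s y)

theorem IsKPP.nonneg {f : ℝ → ℝ} (hf : IsKPP f) {s : ℝ} (hs : s ∈ Icc (0:ℝ) 1) : 0 ≤ f s := by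
  rcases eq_or_lt_of_le hs.1 with h | h
  · rw [← h, hf.zero]
  · rcases eq_or_lt_of_le hs.2 with h' | h'
    · rw [h', hf.one]
    · exact (hf.bound s ⟨h, h'⟩).1.le

theorem IsKPP.lip {f : ℝ → ℝ} (hf : IsKPP f) : ∃ M, 0 ≤ M ∧ ∀ a ∈ Icc (0:ℝ) 1,
    ∀ b ∈ Icc (0:ℝ) 1, |f a - f b| ≤ M * |a - b| := by
  have hc : ContinuousOn (derivWithin f (Icc 0 1)) (Icc 0 1) :=
    hf.contDiff.continuousOn_derivWithin (uniqueDiffOn_Icc zero_lt_one) le_rfl
  obtain ⟨C, hC⟩ := (isCompact_Icc (a := (0:ℝ)) (b := 1)).exists_bound_of_continuousOn hc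
  refine ⟨max C 0, le_max_right _ _, fun a ha b hb => ?_⟩
  have := (convex_Icc (0:ℝ) 1).norm_image_sub_le_of_norm_derivWithin_le (𝕜 := ℝ) (f := f)
    (C := max C 0) (hf.contDiff.differentiableOn one_ne_zero)
    (fun x hx => (hC x hx).trans (le_max_left _ _)) hb ha
  simpa [Real.norm_eq_abs] using this

/-- A continuous extension of `f`. -/
def ext (f : ℝ → ℝ) : ℝ → ℝ := fun s => f (max 0 (min 1 s))

theorem ext_cont {f : ℝ → ℝ} (hf : IsKPP f) : Continuous (ext f) := by
  unfold ext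
  apply hf.contDiff.continuousOn.comp_continuous (by fun_prop)
  intro s
  exact ⟨le_max_left _ _, max_le zero_le_one (min_le_left _ _)⟩

theorem ext_eq {f : ℝ → ℝ} {s : ℝ} (hs : s ∈ Icc (0:ℝ) 1) : ext f s = f s := by
  unfold ext
  rw [min_eq_right hs.2, max_eq_right hs.1]

theorem ext_bd {f : ℝ → ℝ} (hf : IsKPP f) : ∃ C, ∀ s, |ext f s| ≤ C := by
  obtain ⟨C, hC⟩ := (isCompact_Icc (a := (0:ℝ)) (b := 1)).exists_bound_of_continuousOn
    hf.contDiff.continuousOn
  refine ⟨C, fun s => ?_⟩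
  exact hC _ ⟨le_max_left _ _, max_le zero_le_one (min_le_left _ _)⟩

theorem int_bdd_mul {t : ℝ} (ht : 0 < t) (x : E N) {g : E N → ℝ} (hg : Measurable g) {C : ℝ}
    (hC : ∀ y, |g y| ≤ C) : Integrable (fun y => heatK t (x - y) * g y) := by
  apply (heatK_integrable' ht x).mul_bdd (c := C) hg.aestronglyMeasurable
  exact Eventually.of_forall hC

theorem sol_slice {f : ℝ → ℝ} {U : Set (E N)} {u : ℝ → E N → ℝ}
    (hu : IsSolution f U u) (s : ℝ) : Measurable (u s) :=
  hu.meas.comp (f := fun y : E N => (s, y)) (by fun_prop)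

/-- The inner integral as a function of time. -/
theorem inner_int {f : ℝ → ℝ} (hf : IsKPP f) {U : Set (E N)} {u : ℝ → E N → ℝ}
    (hu : IsSolution f U u) (t : ℝ) (ht : 0 < t) (x : E N) :
    IntervalIntegrable (fun s => ∫ y, heatK (t - s) (x - y) * ext f (u s y)) volume 0 t := by
  obtain ⟨C, hC⟩ := ext_bd hf
  rw [intervalIntegrable_iff_integrableOn_Ioo_of_le ht.le]
  have hm : StronglyMeasurable (fun s => ∫ y, heatK (t - s) (x - y) * ext f (u s y)) := by
    apply StronglyMeasurable.integral_prod_right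
      (f := fun s y => heatK (t - s) (x - y) * ext f (u s y))
    apply Measurable.stronglyMeasurable
    apply Measurable.mul
    · exact heatK_meas.comp (f := fun q : ℝ × E N => (t - q.1, x - q.2)) (by fun_prop)
    · exact (ext_cont hf).measurable.comp hu.meas
  apply Measure.integrableOn_of_bounded (M := C) (by simp) hm.aestronglyMeasurable
  filter_upwards [ae_restrict_mem measurableSet_Ioo] with s hs
  have hts : 0 < t - s := by linarith [hs.2]
  calc ‖∫ y, heatK (t - s) (x - y) * ext f (u s y)‖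
      ≤ ∫ y, ‖heatK (t - s) (x - y) * ext f (u s y)‖ := norm_integral_le_integral_norm _
    _ ≤ ∫ y, heatK (t - s) (x - y) * C := by
        apply integral_mono
        · exact (int_bdd_mul hts x (((ext_cont hf).measurable).comp (sol_slice hu s))
            (fun y => hC _)).norm
        · exact (heatK_integrable' hts x).mul_const C
        · intro y
          simp only [norm_mul, Real.norm_eq_abs]
          rw [abs_of_nonneg (heatK_nonneg hts _)]
          exact mul_le_mul_of_nonneg_left (hC _) (heatK_nonneg hts _)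
    _ = C := by rw [integral_mul_const, heatK_int1' hts, one_mul]

theorem duhamel_ext {f : ℝ → ℝ} {U : Set (E N)} {u : ℝ → E N → ℝ}
    (hu : IsSolution f U u) {t : ℝ} (ht : 0 < t) (x : E N) :
    u t x = (∫ y, heatK t (x - y) * U.indicator 1 y) +
    ∫ s in (0:ℝ)..t, ∫ y, heatK (t - s) (x - y) * ext f (u s y) := by
  rw [hu.duhamel t ht x]
  congr 1
  apply intervalIntegral.integral_congr_ae
  refine Eventually.of_forall (fun s hs => ?_)
  rw [uIoc_of_le ht.le] at hs
  apply integral_congr_ae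
  refine Eventually.of_forall (fun y => ?_)
  simp only
  rw [ext_eq (hu.mem s hs.1 y)]

/-- The difference of a solution and its translate satisfies the Duhamel inequality. -/
theorem diff_ineq {f : ℝ → ℝ} (hf : IsKPP f) {M : ℝ} (hM0 : 0 ≤ M)
    (hM : ∀ a ∈ Icc (0:ℝ) 1, ∀ b ∈ Icc (0:ℝ) 1, |f a - f b| ≤ M * |a - b|)
    {U : Set (E N)} (hU : MeasurableSet U) {u : ℝ → E N → ℝ}
    (hu : IsSolution f U u) (h : E N) {t : ℝ} (ht : 0 < t) (x : E N) :
    ‖u t (x + h) - u t x‖ₑ ≤ (∫⁻ y, ENNReal.ofReal (heatK t (x - y)) *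
        ‖U.indicator (1 : E N → ℝ) (y + h) - U.indicator 1 y‖ₑ) +
      ∫⁻ s in Ioo 0 t, ∫⁻ y, ENNReal.ofReal (heatK (t - s) (x - y)) *
        (ENNReal.ofReal M * ‖u s (y + h) - u s y‖ₑ) := by
  obtain ⟨C, hC⟩ := ext_bd hf
  have hUm : Measurable (U.indicator (1 : E N → ℝ)) := measurable_one.indicator hU
  have hUb : ∀ y, |U.indicator (1 : E N → ℝ) y| ≤ 1 := by
    intro y
    by_cases hy : y ∈ U <;> simp [hy]
  have tr : ∀ (τ : ℝ) (g : E N → ℝ), ∫ y, heatK τ (x + h - y) * g y =
      ∫ y, heatK τ (x - y) * g (y + h) := by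
    intro τ g
    rw [← integral_add_right_eq_self (fun y => heatK τ (x + h - y) * g y) h]
    congr 1
    funext y
    congr 2
    abel
  have e1 : u t (x + h) - u t x =
      (∫ y, heatK t (x - y) * (U.indicator (1 : E N → ℝ) (y + h) - U.indicator 1 y)) +
      ∫ s in (0:ℝ)..t, ∫ y, heatK (t - s) (x - y) * (ext f (u s (y + h)) - ext f (u s y)) := by
    rw [duhamel_ext hu ht (x + h), duhamel_ext hu ht x, add_sub_add_comm, tr]
    congr 1
    · rw [← integral_sub]
      · congr 1
        funext y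
        ring
      · exact int_bdd_mul ht x (hUm.comp (by fun_prop)) (fun y => hUb _)
      · exact int_bdd_mul ht x hUm hUb
    · rw [← intervalIntegral.integral_sub (inner_int hf hu t ht _) (inner_int hf hu t ht _)]
      apply intervalIntegral.integral_congr_ae
      have hne : ∀ᵐ s : ℝ, s ≠ t := by
        simp [ae_iff]
      filter_upwards [hne] with s hst hs
      rw [uIoc_of_le ht.le] at hs
      have hts : 0 < t - s := by
        have := lt_of_le_of_ne hs.2 hst
        linarith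
      rw [tr, ← integral_sub]
      · congr 1
        funext y
        ring
      · exact int_bdd_mul hts x (((ext_cont hf).measurable.comp (sol_slice hu s)).comp
          (by fun_prop : Measurable (fun y : E N => y + h))) (fun y => hC _)
      · exact int_bdd_mul hts x (((ext_cont hf).measurable).comp (sol_slice hu s))
          (fun y => hC _)
  rw [e1]
  refine (enorm_add_le _ _).trans ?_
  gcongr
  · refine (enorm_integral_le_lintegral_enorm _).trans ?_
    apply lintegral_mono
    intro y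
    simp only
    rw [enorm_mul, Real.enorm_eq_ofReal (heatK_nonneg ht _)]
  · rw [intervalIntegral.integral_of_le ht.le, integral_Ioc_eq_integral_Ioo]
    refine (enorm_integral_le_lintegral_enorm _).trans ?_
    apply setLIntegral_mono' measurableSet_Ioo
    intro s hs
    have hts : 0 < t - s := by linarith [hs.2]
    refine (enorm_integral_le_lintegral_enorm _).trans ?_
    apply lintegral_mono
    intro y
    simp only
    rw [enorm_mul, Real.enorm_eq_ofReal (heatK_nonneg hts _)]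
    gcongr
    rw [ext_eq (hu.mem s hs.1 _), ext_eq (hu.mem s hs.1 _)]
    have := hM _ (hu.mem s hs.1 (y + h)) _ (hu.mem s hs.1 y)
    rw [← Real.enorm_eq_ofReal hM0, ← enorm_mul]
    rw [← ofReal_norm, ← ofReal_norm]
    apply ENNReal.ofReal_le_ofReal
    rw [norm_mul, Real.norm_eq_abs, Real.norm_eq_abs, Real.norm_eq_abs, abs_of_nonneg hM0]
    exact this

/-- Gronwall for translates. -/
theorem diff_le {f : ℝ → ℝ} (hf : IsKPP f) {M : ℝ} (hM0 : 0 ≤ M)
    (hM : ∀ a ∈ Icc (0:ℝ) 1, ∀ b ∈ Icc (0:ℝ) 1, |f a - f b| ≤ M * |a - b|)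
    {U : Set (E N)} (hU : MeasurableSet U) {u : ℝ → E N → ℝ}
    (hu : IsSolution f U u) (h : E N) {t : ℝ} (ht : 0 < t) (x : E N) :
    ‖u t (x + h) - u t x‖ₑ ≤ ENNReal.ofReal (Real.exp (M * t)) *
      ∫⁻ y, ENNReal.ofReal (heatK t (x - y)) *
        ‖U.indicator (1 : E N → ℝ) (y + h) - U.indicator 1 y‖ₑ := by
  have hUm : Measurable (U.indicator (1 : E N → ℝ)) := measurable_one.indicator hU
  have hD : Measurable (fun y : E N =>
      ‖U.indicator (1 : E N → ℝ) (y + h) - U.indicator 1 y‖ₑ) := by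
    apply Measurable.enorm
    exact (hUm.comp (by fun_prop : Measurable (fun y : E N => y + h))).sub hUm
  refine gronwall (d := fun t x => ‖u t (x + h) - u t x‖ₑ) ?_ hD hM0
    (fun t ht x => diff_ineq hf hM0 hM hU hu h ht x) t ht x
  intro t ht x
  rw [← ofReal_norm, ← ENNReal.ofReal_one]
  apply ENNReal.ofReal_le_ofReal
  rw [Real.norm_eq_abs, abs_le]
  have h1 := hu.mem t ht (x + h)
  have h2 := hu.mem t ht x
  constructor <;> linarith [h1.1, h1.2, h2.1, h2.2]

/-- A solution dominates the solution of the heat equation. -/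
theorem one_sub_le {f : ℝ → ℝ} (hf : IsKPP f) {U : Set (E N)} (hU : MeasurableSet U)
    {u : ℝ → E N → ℝ} (hu : IsSolution f U u) {t : ℝ} (ht : 0 < t) (x : E N) :
    ENNReal.ofReal (1 - u t x) ≤
      ∫⁻ y, ENNReal.ofReal (heatK t (x - y)) * Uᶜ.indicator 1 y := by
  have hUm : Measurable (U.indicator (1 : E N → ℝ)) := measurable_one.indicator hU
  have hUb : ∀ y, |U.indicator (1 : E N → ℝ) y| ≤ 1 := by
    intro y
    by_cases hy : y ∈ U <;> simp [hy]
  have hUcm : Measurable (Uᶜ.indicator (1 : E N → ℝ)) := measurable_one.indicator hU.compl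
  have hUcb : ∀ y, |Uᶜ.indicator (1 : E N → ℝ) y| ≤ 1 := by
    intro y
    by_cases hy : y ∈ U <;> simp [hy]
  have h2 : 0 ≤ ∫ s in (0:ℝ)..t, ∫ y, heatK (t - s) (x - y) * f (u s y) := by
    rw [intervalIntegral.integral_of_le ht.le, integral_Ioc_eq_integral_Ioo]
    apply setIntegral_nonneg measurableSet_Ioo
    intro s hs
    have hts : 0 < t - s := by linarith [hs.2]
    apply integral_nonneg
    intro y
    exact mul_nonneg (heatK_nonneg hts _) (hf.nonneg (hu.mem s hs.1 y))
  have h3 : 1 - u t x ≤ ∫ y, heatK t (x - y) * Uᶜ.indicator 1 y := by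
    have h4 := hu.duhamel t ht x
    have h5 : (∫ y, heatK t (x - y) * U.indicator 1 y) +
        ∫ y, heatK t (x - y) * Uᶜ.indicator 1 y = 1 := by
      rw [← integral_add (int_bdd_mul ht x hUm hUb) (int_bdd_mul ht x hUcm hUcb),
        ← heatK_int1' ht x]
      congr 1
      funext y
      by_cases hy : y ∈ U <;> simp [hy]
    linarith
  refine (ENNReal.ofReal_le_ofReal h3).trans ?_
  rw [ofReal_integral_eq_lintegral_ofReal (int_bdd_mul ht x hUcm hUcb)
    (Eventually.of_forall fun y => mul_nonneg (heatK_nonneg ht _)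
      (indicator_nonneg (fun _ _ => zero_le_one) _))]
  apply lintegral_mono
  intro y
  simp only
  rw [ENNReal.ofReal_mul (heatK_nonneg ht _)]
  gcongr
  by_cases hy : y ∈ U <;> simp [hy]

end

end Pool.Agent.X297.KP
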